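import Pool.Agent.H79.LLL.Main

/-!
Integer relations and kernels from lattice basis reduction of block bases `[U | 1]`.
-/

namespace Pool.Agent.H79.Cx

open LLL

variable {α : Type} [Enc α]

/-- The block basis `[U | 1]`. -/
def blockRows (c₀ r : ℕ) (U : List (List ℤ)) : List (List ℤ) :=
  tab r fun i => tab (c₀ + r) fun t => if t < c₀ then ent U i t else if t = c₀ + i then 1 else 0

@[fun_prop]
theorem PT.blockRows {c₀ r : α → ℕ} {U : α → List (List ℤ)} (hc : PT c₀) (hr : PT r)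
    (hU : PT U) : PT (fun x => blockRows (c₀ x) (r x) (U x)) := by
  unfold Cx.blockRows; fun_prop

/-- Its reduction. -/
def blockRed (e c₀ r : ℕ) (U : List (List ℤ)) : List (List ℤ) :=
  redBasis e r (c₀ + r) (blockRows c₀ r U)

@[fun_prop]
theorem PT.blockRed {e c₀ r : α → ℕ} {U : α → List (List ℤ)} (he : PT e) (hc : PT c₀)
    (hr : PT r) (hU : PT U) : PT (fun x => blockRed (e x) (c₀ x) (r x) (U x)) := by
  unfold Cx.blockRed; fun_prop

/-- Squared norm of the first row. -/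
def normSq (N : ℕ) (B : List (List ℤ)) : ℤ := ∑ t ∈ Finset.range N, ent B 0 t * ent B 0 t

@[fun_prop]
theorem PT.normSq {N : α → ℕ} {B : α → List (List ℤ)} (hN : PT N) (hB : PT B) :
    PT (fun x => normSq (N x) (B x)) := by
  unfold Cx.normSq; fun_prop

/-- Is there a short relation among the first `r` rows? -/
def relTest (e c₀ τ : ℕ) (U : List (List ℤ)) (r : ℕ) : Bool :=
  decide (normSq (c₀ + r) (blockRed e c₀ r U) ≤ 2 ^ τ)

@[fun_prop]
theorem PT.relTest {e c₀ τ r : α → ℕ} {U : α → List (List ℤ)} (he : PT e) (hc : PT c₀)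
    (hτ : PT τ) (hr : PT r) (hU : PT U) :
    PT (fun x => relTest (e x) (c₀ x) (τ x) (U x) (r x)) := by
  unfold Cx.relTest; fun_prop

/-- The number of rows minus one of the first short relation. -/
def relFind (e c₀ τ rmax : ℕ) (U : List (List ℤ)) : ℕ :=
  findFirst rmax (fun k => relTest e c₀ τ U (k + 1))

@[fun_prop]
theorem PT.relFind {e c₀ τ rmax : α → ℕ} {U : α → List (List ℤ)} (he : PT e) (hc : PT c₀)
    (hτ : PT τ) (hr : PT rmax) (hU : PT U) :
    PT (fun x => relFind (e x) (c₀ x) (τ x) (rmax x) (U x)) := by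
  unfold Cx.relFind
  refine PT.findFirst (p := fun x k => Cx.relTest (e x) (c₀ x) (τ x) (U x) (k + 1)) ?_ hr
  fun_prop

/-- The coefficients of the short relation among the first `k + 1` rows. -/
def relOf (e c₀ : ℕ) (U : List (List ℤ)) (k : ℕ) : List ℤ :=
  tab (k + 1) fun i => ent (blockRed e c₀ (k + 1) U) 0 (c₀ + i)

@[fun_prop]
theorem PT.relOf {e c₀ k : α → ℕ} {U : α → List (List ℤ)} (he : PT e) (hc : PT c₀)
    (hk : PT k) (hU : PT U) :
    PT (fun x => relOf (e x) (c₀ x) (U x) (k x)) := by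
  unfold Cx.relOf; fun_prop

/-- The first short relation. -/
def relOut (e c₀ τ rmax : ℕ) (U : List (List ℤ)) : List ℤ :=
  relOf e c₀ U (relFind e c₀ τ rmax U)

@[fun_prop]
theorem PT.relOut {e c₀ τ rmax : α → ℕ} {U : α → List (List ℤ)} (he : PT e) (hc : PT c₀)
    (hτ : PT τ) (hr : PT rmax) (hU : PT U) :
    PT (fun x => relOut (e x) (c₀ x) (τ x) (rmax x) (U x)) := by
  unfold Cx.relOut; fun_prop

/-- The tail of row `i` is zero. -/
def tailZero (c₀ : ℕ) (B : List (List ℤ)) (i : ℕ) : Bool :=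
  (List.range c₀).all fun t => decide (ent B i t = 0)

@[fun_prop]
theorem PT.tailZero {c₀ i : α → ℕ} {B : α → List (List ℤ)} (hc : PT c₀) (hi : PT i)
    (hB : PT B) : PT (fun x => tailZero (c₀ x) (B x) (i x)) := by
  unfold Cx.tailZero
  refine PT.all (p := fun x t => decide (Cx.ent (B x) (i x) t = 0)) ?_ hc
  fun_prop

/-- Weighted sum of the coefficients of row `i`. -/
def wsum (c₀ r : ℕ) (w : List ℤ) (B : List (List ℤ)) (i : ℕ) : ℤ :=
  ∑ j ∈ Finset.range r, w.getD j 0 * ent B i (c₀ + j)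

@[fun_prop]
theorem PT.wsum {c₀ r i : α → ℕ} {w : α → List ℤ} {B : α → List (List ℤ)} (hc : PT c₀)
    (hr : PT r) (hi : PT i) (hw : PT w) (hB : PT B) :
    PT (fun x => wsum (c₀ x) (r x) (w x) (B x) (i x)) := by
  unfold Cx.wsum; fun_prop

/-- Is an integer even? -/
def evenB (z : ℤ) : Bool := decide (2 * (z / 2) = z)

@[fun_prop]
theorem PT.evenB {z : α → ℤ} (hz : PT z) : PT (fun x => evenB (z x)) := by
  unfold Cx.evenB; fun_prop

/-- Do all kernel vectors in the basis have even weighted sum? -/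
def parTest (c₀ r : ℕ) (w : List ℤ) (B : List (List ℤ)) : Bool :=
  (List.range r).all fun i => !(tailZero c₀ B i) || evenB (wsum c₀ r w B i)

@[fun_prop]
theorem PT.parTest {c₀ r : α → ℕ} {w : α → List ℤ} {B : α → List (List ℤ)} (hc : PT c₀)
    (hr : PT r) (hw : PT w) (hB : PT B) :
    PT (fun x => parTest (c₀ x) (r x) (w x) (B x)) := by
  unfold Cx.parTest
  refine PT.all (p := fun x i => !(Cx.tailZero (c₀ x) (B x) i) ||
    Cx.evenB (Cx.wsum (c₀ x) (r x) (w x) (B x) i)) ?_ hr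
  fun_prop

end Pool.Agent.H79.Cx

namespace Pool.Agent.H79.LLL

open Finset Function Cx

/-- The block family `[u | 1]`. -/
def blockB (c₀ : ℕ) (u : ℕ → ℕ → ℤ) (i t : ℕ) : ℤ :=
  if t < c₀ then u i t else if t = c₀ + i then 1 else 0

theorem blockB_tail {c₀ : ℕ} {u : ℕ → ℕ → ℤ} (i : ℕ) {t : ℕ} (ht : t < c₀) :
    blockB c₀ u i t = u i t := if_pos ht

theorem blockB_id {c₀ : ℕ} {u : ℕ → ℕ → ℤ} (i j : ℕ) :
    blockB c₀ u i (c₀ + j) = if i = j then 1 else 0 := by
  unfold blockB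
  rw [if_neg (by omega)]
  by_cases h : i = j
  · rw [if_pos (by omega), if_pos h]
  · rw [if_neg (by omega), if_neg h]

theorem blockB_nondeg (c₀ r : ℕ) (u : ℕ → ℕ → ℤ) : Nondeg (c₀ + r) r (blockB c₀ u) :=
  nondeg_of_block le_rfl fun i _ j _ => blockB_id i j

theorem blockRed_spec {e c₀ r : ℕ} {u : ℕ → ℕ → ℤ} {U : List (List ℤ)}
    (hU : ∀ i < r, ∀ t < c₀, ent U i t = u i t) (hu : ∀ i < r, ∀ t < c₀, |u i t| ≤ 2 ^ e) :
    ∃ c : ℕ → ℕ → ℤ, blockRed e c₀ r U = lb r (c₀ + r) c ∧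
      Reduced (c₀ + r) r (blockB c₀ u) c := by
  have h1 : blockRows c₀ r U = lb r (c₀ + r) (blockB c₀ u) := by
    unfold blockRows lb
    refine tab_congr fun i hi => tab_congr fun t _ => ?_
    unfold blockB
    by_cases ht : t < c₀
    · rw [if_pos ht, if_pos ht, hU i hi t ht]
    · rw [if_neg ht, if_neg ht]
  unfold blockRed
  rw [h1]
  refine redBasis_spec (fun i hi t _ => ?_) (blockB_nondeg c₀ r u)
  unfold blockB
  have h2 : (1 : ℤ) ≤ 2 ^ e := one_le_pow₀ (by norm_num)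
  split_ifs with h3 h4
  · exact hu i hi t h3
  · simpa using h2
  · simp

/-- Vectors of the lattice of a block family. -/
theorem block_coeffs {c₀ r : ℕ} {u : ℕ → ℕ → ℤ} {v : ℕ → ℤ}
    (hv : (fun t : Fin (c₀ + r) => v t) ∈ Lat (c₀ + r) r (blockB c₀ u)) :
    ∀ t < c₀ + r, v t = ∑ i ∈ range r, v (c₀ + i) * blockB c₀ u i t := by
  obtain ⟨a, -, ha⟩ := exists_coeffs hv
  have h1 : ∀ t < c₀ + r, v t = ∑ i ∈ range r, a i * blockB c₀ u i t := by
    intro t ht
    have := congrFun ha ⟨t, ht⟩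
    simpa using this
  have h2 : ∀ i < r, v (c₀ + i) = a i := by
    intro i hi
    rw [h1 (c₀ + i) (by omega), Finset.sum_eq_single i]
    · rw [blockB_id, if_pos rfl, mul_one]
    · intro j _ hji
      rw [blockB_id, if_neg hji, mul_zero]
    · intro h; exact absurd (mem_range.2 hi) h
  intro t ht
  rw [h1 t ht]
  exact sum_congr rfl fun i hi => by rw [h2 i (mem_range.1 hi)]

/-- Squared norm of the lattice vector with coefficients `h`. -/
def nrm (c₀ : ℕ) (u : ℕ → ℕ → ℤ) (r : ℕ) (h : ℕ → ℤ) : ℤ :=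
  ∑ t ∈ range c₀, (∑ i ∈ range r, h i * u i t) ^ 2 + ∑ i ∈ range r, h i ^ 2

/-- The lattice vector with coefficients `h`. -/
def lvec (c₀ : ℕ) (u : ℕ → ℕ → ℤ) (r : ℕ) (h : ℕ → ℤ) (t : ℕ) : ℤ :=
  ∑ i ∈ range r, h i * blockB c₀ u i t

theorem lvec_mem (c₀ : ℕ) (u : ℕ → ℕ → ℤ) (r : ℕ) (h : ℕ → ℤ) :
    (fun t : Fin (c₀ + r) => lvec c₀ u r h t) ∈ Lat (c₀ + r) r (blockB c₀ u) := by
  have : (fun t : Fin (c₀ + r) => lvec c₀ u r h t) =
      ∑ i ∈ range r, h i • (fun t : Fin (c₀ + r) => blockB c₀ u i t) := by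
    funext t
    simp [lvec]
  rw [this]
  exact Submodule.sum_mem _ fun i hi => Submodule.smul_mem _ _ (mem_Lat _ (mem_range.1 hi))

theorem lvec_tail {c₀ : ℕ} {u : ℕ → ℕ → ℤ} {r : ℕ} {h : ℕ → ℤ} {t : ℕ} (ht : t < c₀) :
    lvec c₀ u r h t = ∑ i ∈ range r, h i * u i t :=
  sum_congr rfl fun i _ => by rw [blockB_tail i ht]

theorem lvec_id {c₀ : ℕ} {u : ℕ → ℕ → ℤ} {r : ℕ} {h : ℕ → ℤ} {i : ℕ} (hi : i < r) :
    lvec c₀ u r h (c₀ + i) = h i := by
  unfold lvec
  rw [Finset.sum_eq_single i]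
  · rw [blockB_id, if_pos rfl, mul_one]
  · intro j _ hji
    rw [blockB_id, if_neg hji, mul_zero]
  · intro h; exact absurd (mem_range.2 hi) h

theorem dz_eq_nrm {c₀ r : ℕ} {u : ℕ → ℕ → ℤ} {v h : ℕ → ℤ}
    (h1 : ∀ t < c₀, v t = ∑ i ∈ range r, h i * u i t) (h2 : ∀ i < r, v (c₀ + i) = h i) :
    dz (c₀ + r) v v = nrm c₀ u r h := by
  unfold dz nrm
  rw [sum_range_add]
  congr 1
  · exact sum_congr rfl fun t ht => by rw [h1 t (mem_range.1 ht)]; ring
  · exact sum_congr rfl fun i hi => by rw [h2 i (mem_range.1 hi)]; ring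

theorem dotProduct_eq_dz {N : ℕ} (v : ℕ → ℤ) :
    (fun t : Fin N => v t) ⬝ᵥ (fun t : Fin N => v t) = dz N v v := by
  unfold dz dotProduct
  rw [Finset.sum_range]

/-- The first relation is found. -/
theorem relOut_spec {e c₀ τ rmax s : ℕ} {u : ℕ → ℕ → ℤ} {U : List (List ℤ)} (hs : s < rmax)
    (hU : ∀ i < rmax, ∀ t < c₀, ent U i t = u i t)
    (hu : ∀ i < rmax, ∀ t < c₀, |u i t| ≤ 2 ^ e)
    (hlow : ∀ (h : ℕ → ℤ), ∀ r ≤ s, (∃ i < r, h i ≠ 0) → 2 ^ τ < nrm c₀ u r h)
    (hup : ∃ h : ℕ → ℤ, (∃ i < s + 1, h i ≠ 0) ∧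
      2 ^ (s + 1) * nrm c₀ u (s + 1) h ≤ 2 ^ τ) :
    ∃ h : ℕ → ℤ, relOut e c₀ τ rmax U = tab (s + 1) h ∧ (∃ i < s + 1, h i ≠ 0) ∧
      nrm c₀ u (s + 1) h ≤ 2 ^ τ := by
  -- analysis of a single test
  have test : ∀ r, 0 < r → r ≤ rmax → ∃ c : ℕ → ℕ → ℤ,
      blockRed e c₀ r U = lb r (c₀ + r) c ∧
      (∃ i < r, c 0 (c₀ + i) ≠ 0) ∧
      normSq (c₀ + r) (blockRed e c₀ r U) = nrm c₀ u r (fun i => c 0 (c₀ + i)) ∧
      ∀ h : ℕ → ℤ, (∃ i < r, h i ≠ 0) →
        nrm c₀ u r (fun i => c 0 (c₀ + i)) ≤ 2 ^ r * nrm c₀ u r h := by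
    intro r hr0 hr
    obtain ⟨c, hc1, hc2⟩ := blockRed_spec (e := e) (r := r) (u := u) (U := U)
      (fun i hi t ht => hU i (by omega) t ht) (fun i hi t ht => hu i (by omega) t ht)
    obtain ⟨f1, f2, f3⟩ := hc2.first hr0
    have f4 := block_coeffs f1
    have htail : ∀ t < c₀, c 0 t = ∑ i ∈ range r, c 0 (c₀ + i) * u i t := by
      intro t ht
      rw [f4 t (by omega)]
      exact sum_congr rfl fun i _ => by rw [blockB_tail i ht]
    refine ⟨c, hc1, ?_, ?_, ?_⟩
    · by_contra hcon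
      push Not at hcon
      apply f2
      funext t
      rw [f4 t t.2]
      exact sum_eq_zero fun i hi => by rw [hcon i (mem_range.1 hi), zero_mul]
    · rw [← dz_eq_nrm (v := c 0) htail (fun i _ => rfl), hc1]
      unfold normSq dz
      refine sum_congr rfl fun t ht => ?_
      rw [ent_lb hr0 (mem_range.1 ht)]
    · intro h hh
      rw [← dz_eq_nrm (v := c 0) htail (fun i _ => rfl)]
      have g1 := f3 (fun t : Fin (c₀ + r) => lvec c₀ u r h t) (lvec_mem c₀ u r h) (by
        intro h0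
        obtain ⟨i, hi, hi0⟩ := hh
        have := congrFun h0 ⟨c₀ + i, by omega⟩
        simp only [Pi.zero_apply] at this
        rw [lvec_id hi] at this
        exact hi0 this)
      rw [dotProduct_eq_dz, dz_eq_nrm (u := u) (h := h) (fun t ht => lvec_tail ht)
        (fun i hi => lvec_id hi)] at g1
      exact g1
  have hfind : relFind e c₀ τ rmax U = s := by
    unfold relFind
    refine findFirst_spec hs ?_ ?_
    · obtain ⟨c, hc1, hc2, hc3, hc4⟩ := test (s + 1) (by omega) (by omega)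
      unfold relTest
      rw [decide_eq_true_eq, hc3]
      obtain ⟨h, hh1, hh2⟩ := hup
      exact (hc4 h hh1).trans hh2
    · intro k hk
      obtain ⟨c, hc1, hc2, hc3, hc4⟩ := test (k + 1) (by omega) (by omega)
      unfold relTest
      rw [decide_eq_false_iff_not, hc3, not_le]
      exact hlow _ (k + 1) (by omega) hc2
  obtain ⟨c, hc1, hc2, hc3, hc4⟩ := test (s + 1) (by omega) (by omega)
  refine ⟨fun i => c 0 (c₀ + i), ?_, hc2, ?_⟩
  · unfold relOut
    rw [hfind]
    unfold relOf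
    refine tab_congr fun i hi => ?_
    rw [hc1, ent_lb (by omega) (by omega)]
  · obtain ⟨h, hh1, hh2⟩ := hup
    exact (hc4 h hh1).trans hh2

theorem evenB_iff (z : ℤ) : evenB z = true ↔ Even z := by
  unfold evenB
  rw [decide_eq_true_eq]
  constructor
  · intro h; exact ⟨z / 2, by omega⟩
  · rintro ⟨k, hk⟩; omega

/-- The kernel parity test. -/
theorem parTest_spec {e κ c₀ r : ℕ} {m : ℕ → ℕ → ℤ} {w : ℕ → ℤ} {W : List ℤ}
    {U : List (List ℤ)} (hU : ∀ i < r, ∀ t < c₀, ent U i t = 2 ^ κ * m i t)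
    (hu : ∀ i < r, ∀ t < c₀, |2 ^ κ * m i t| ≤ 2 ^ e)
    (hW : ∀ i < r, W.getD i 0 = w i)
    (hbd : (∃ h : ℕ → ℤ, (∀ t < c₀, ∑ i ∈ range r, h i * m i t = 0) ∧
        ¬ Even (∑ i ∈ range r, w i * h i)) →
      ∃ h : ℕ → ℤ, (∀ t < c₀, ∑ i ∈ range r, h i * m i t = 0) ∧
        ¬ Even (∑ i ∈ range r, w i * h i) ∧ 2 ^ r * ∑ i ∈ range r, h i ^ 2 < 2 ^ (2 * κ)) :
    parTest c₀ r W (blockRed e c₀ r U) = true ↔
      ∀ h : ℕ → ℤ, (∀ t < c₀, ∑ i ∈ range r, h i * m i t = 0) →
        Even (∑ i ∈ range r, w i * h i) := by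
  obtain ⟨c, hc1, hc2⟩ := blockRed_spec (u := fun i t => 2 ^ κ * m i t) hU hu
  have hrow : ∀ i < r, ∀ t < c₀, c i t = 2 ^ κ * ∑ j ∈ range r, c i (c₀ + j) * m j t := by
    intro i hi t ht
    have f1 : (fun t : Fin (c₀ + r) => c i t) ∈
        Lat (c₀ + r) r (blockB c₀ (fun i t => 2 ^ κ * m i t)) := by
      rw [← hc2.lat]; exact mem_Lat c hi
    rw [block_coeffs f1 t (by omega), mul_sum]
    refine sum_congr rfl fun j _ => ?_
    rw [blockB_tail j ht]; ring
  have htz : ∀ i < r, tailZero c₀ (blockRed e c₀ r U) i = true ↔ ∀ t < c₀, c i t = 0 := by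
    intro i hi
    unfold tailZero
    rw [List.all_eq_true, hc1]
    constructor
    · intro h t ht
      have := h t (List.mem_range.2 ht)
      rw [ent_lb hi (by omega)] at this
      simpa using this
    · intro h t ht
      have ht' := List.mem_range.1 ht
      rw [ent_lb hi (by omega)]
      simpa using h t ht'
  have hws : ∀ i < r, wsum c₀ r W (blockRed e c₀ r U) i = ∑ j ∈ range r, w j * c i (c₀ + j) := by
    intro i hi
    unfold wsum
    rw [hc1]
    refine sum_congr rfl fun j hj => ?_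
    have hj' := mem_range.1 hj
    rw [hW j hj', ent_lb hi (by omega)]
  have htest : parTest c₀ r W (blockRed e c₀ r U) = true ↔
      ∀ i < r, (∀ t < c₀, c i t = 0) → Even (∑ j ∈ range r, w j * c i (c₀ + j)) := by
    unfold parTest
    rw [List.all_eq_true]
    constructor
    · intro h i hi ht
      have := h i (List.mem_range.2 hi)
      rw [(htz i hi).2 ht] at this
      simp only [Bool.not_true, Bool.false_or] at this
      rw [evenB_iff, hws i hi] at this
      exact this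
    · intro h i hi
      have hi' := List.mem_range.1 hi
      by_cases ht : ∀ t < c₀, c i t = 0
      · rw [(htz i hi').2 ht]
        simp only [Bool.not_true, Bool.false_or]
        rw [evenB_iff, hws i hi']
        exact h i hi' ht
      · have : tailZero c₀ (blockRed e c₀ r U) i = false := by
          rw [← Bool.not_eq_true, htz i hi']
          exact ht
        rw [this]
        rfl
  rw [htest]
  constructor
  · intro h
    by_contra hcon
    push Not at hcon
    obtain ⟨h0, hk0, hodd0⟩ := hcon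
    obtain ⟨h1, hk1, hodd1, hbd1⟩ := hbd ⟨h0, hk0, hodd0⟩
    set u : ℕ → ℕ → ℤ := fun i t => 2 ^ κ * m i t with hudef
    have hne : ∃ i < r, h1 i ≠ 0 := by
      by_contra hall
      push Not at hall
      apply hodd1
      rw [sum_eq_zero fun i hi => by rw [hall i (mem_range.1 hi), mul_zero]]
      exact Even.zero
    obtain ⟨j, hjr, hj1, hj2⟩ := hc2.main (v := fun t : Fin (c₀ + r) => lvec c₀ u r h1 t)
      (lvec_mem c₀ u r h1) (by
        intro h0
        obtain ⟨i, hi, hi0⟩ := hne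
        have := congrFun h0 ⟨c₀ + i, by omega⟩
        simp only [Pi.zero_apply] at this
        rw [lvec_id hi] at this
        exact hi0 this)
    have htail0 : ∀ t < c₀, lvec c₀ u r h1 t = 0 := by
      intro t ht
      rw [lvec_tail ht]
      have : ∑ i ∈ range r, h1 i * u i t = 2 ^ κ * ∑ i ∈ range r, h1 i * m i t := by
        rw [mul_sum]
        refine sum_congr rfl fun i _ => ?_
        change h1 i * (2 ^ κ * m i t) = _
        ring
      rw [this, hk1 t ht, mul_zero]
    have hnorm : (fun t : Fin (c₀ + r) => lvec c₀ u r h1 t) ⬝ᵥ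
        (fun t : Fin (c₀ + r) => lvec c₀ u r h1 t) = ∑ i ∈ range r, h1 i ^ 2 := by
      rw [dotProduct_eq_dz]
      unfold dz
      rw [sum_range_add]
      have e1 : ∑ t ∈ range c₀, lvec c₀ u r h1 t * lvec c₀ u r h1 t = 0 :=
        sum_eq_zero fun t ht => by rw [htail0 t (mem_range.1 ht), mul_zero]
      rw [e1, zero_add]
      exact sum_congr rfl fun i hi => by rw [lvec_id (mem_range.1 hi)]; ring
    rw [hnorm] at hj2
    have hzero : ∀ i ≤ j, ∀ t < c₀, c i t = 0 := by
      intro i hij t ht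
      have hir : i < r := by omega
      have g1 := hj2 i hij
      rw [hrow i hir t ht]
      by_contra hne0
      have g2 : c i t ^ 2 ≤ dz (c₀ + r) (c i) (c i) := by
        unfold dz
        have := single_le_sum (f := fun t => c i t * c i t) (fun t _ => mul_self_nonneg _)
          (mem_range.2 (show t < c₀ + r by omega))
        nlinarith
      have g3 : (2 : ℤ) ^ (2 * κ) ≤ c i t ^ 2 := by
        rw [hrow i hir t ht, mul_pow, ← pow_mul, mul_comm κ 2]
        have : (∑ j ∈ range r, c i (c₀ + j) * m j t) ≠ 0 := by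
          intro h0; rw [h0, mul_zero] at hne0; exact hne0 rfl
        have h2 : 1 ≤ (∑ j ∈ range r, c i (c₀ + j) * m j t) ^ 2 := by
          have : 0 < (∑ j ∈ range r, c i (c₀ + j) * m j t) ^ 2 := by positivity
          omega
        exact le_mul_of_one_le_right (by positivity) h2
      linarith
    -- parity of the combination
    obtain ⟨a, -, ha⟩ := exists_coeffs hj1
    apply hodd1
    have hcomb : ∀ i < r, h1 i = ∑ l ∈ range (j + 1), a l * c l (c₀ + i) := by
      intro i hi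
      have := congrFun ha ⟨c₀ + i, by omega⟩
      simp only at this
      rw [lvec_id hi] at this
      rw [this]
      simp
    have : ∑ i ∈ range r, w i * h1 i =
        ∑ l ∈ range (j + 1), a l * ∑ i ∈ range r, w i * c l (c₀ + i) := by
      calc ∑ i ∈ range r, w i * h1 i
          = ∑ i ∈ range r, ∑ l ∈ range (j + 1), a l * (w i * c l (c₀ + i)) := by
            refine sum_congr rfl fun i hi => ?_
            rw [hcomb i (mem_range.1 hi), mul_sum]
            exact sum_congr rfl fun l _ => by ring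
        _ = _ := by
            rw [sum_comm]
            exact sum_congr rfl fun l _ => by rw [mul_sum]
    rw [this]
    refine Finset.even_sum _ fun l hl => ?_
    have hl' := mem_range.1 hl
    exact (h l (by omega) (hzero l (by omega))).mul_left _
  · intro h i hi ht
    refine h (fun j => c i (c₀ + j)) fun t ht' => ?_
    have h1 := hrow i hi t ht'
    rw [ht t ht'] at h1
    have h2 : (2 : ℤ) ^ κ ≠ 0 := by positivity
    exact (mul_eq_zero.1 h1.symm).resolve_left h2

end Pool.Agent.H79.LLL
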