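import Pool.Agent.H79.LLL.Prog

/-!
Correctness of the reduction program, and sufficient values of its parameters.
-/

namespace Pool.Agent.H79.LLL

open Finset Function Cx

variable {N : ℕ}

/-- List form of a family. -/
def lb (r N : ℕ) (b : ℕ → ℕ → ℤ) : List (List ℤ) := tab r fun i => tab N fun t => b i t

theorem ent_lb {r : ℕ} {b : ℕ → ℕ → ℤ} {i t : ℕ} (hi : i < r) (ht : t < N) :
    ent (lb r N b) i t = b i t := by
  unfold ent lb
  rw [getD_tab_lt _ _ hi, getD_tab_lt _ _ ht]

theorem lb_congr {r : ℕ} {b c : ℕ → ℕ → ℤ} (h : ∀ i < r, ∀ t < N, b i t = c i t) :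
    lb r N b = lb r N c :=
  tab_congr fun i hi => tab_congr fun t ht => h i hi t ht

/-- Bound on the size of a matrix. -/
def LB (β r N : ℕ) : ℕ := 1 + r * (1 + (1 + N * (1 + (4 * β + 5))))

theorem LB_mono {β r N r' N' : ℕ} (hr : r ≤ r') (hN : N ≤ N') : LB β r N ≤ LB β r' N' := by
  unfold LB
  gcongr

theorem sz_lb_le {r : ℕ} {b : ℕ → ℕ → ℤ} {β : ℕ} (h : ∀ i < r, ∀ t < N, |b i t| < 2 ^ β) :
    sz (lb r N b) ≤ LB β r N := by
  unfold LB lb
  refine sz_tab_le fun i hi => sz_tab_le fun t ht => ?_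
  have := sz_int_le (b i t)
  have h2 : bl (b i t) ≤ β := bl_le_iff.2 (h i hi t ht)
  omega

/-- A state during the algorithm. -/
structure Inter (N r : ℕ) (X F : ℤ) (b : ℕ → ℕ → ℤ) : Prop where
  nd : Nondeg N r b
  le : ∀ k ≤ r, DZ N b k ≤ X
  ent : Ent N r b F

theorem MZ_bound {r : ℕ} {X F : ℤ} {b : ℕ → ℕ → ℤ} (h : Inter N r X F b) {k i j : ℕ}
    (hk : k ≤ r) (hi : i < r) (hj : j < r) : |MZ N b k (b i) (b j)| ≤ X * (N * F ^ 2) := by
  have h1 : |((MZ N b k (b i) (b j) : ℤ) : ℚ)| ≤ X * (N * (F : ℚ) ^ 2) := by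
    rw [MZ_cast, ← DZ_cast, abs_mul]
    have a1 : (0 : ℚ) ≤ DZ N b k := by exact_mod_cast (h.nd k hk).le
    have a2 : ((DZ N b k : ℤ) : ℚ) ≤ X := by exact_mod_cast h.le k hk
    rw [abs_of_nonneg a1]
    have b1 := g_norm_le (bq N b) k (vec N (b i))
    have b2 := g_norm_le (bq N b) k (vec N (b j))
    have b3 := vec_dot_le (N := N) (h.ent i hi)
    have b4 := vec_dot_le (N := N) (h.ent j hj)
    set x := g (bq N b) k (vec N (b i)) with hx
    set y := g (bq N b) k (vec N (b j)) with hy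
    have c1 : |x ⬝ᵥ y| ≤ N * (F : ℚ) ^ 2 := by
      have d1 := dot_self_nonneg (x + y)
      have d2 := dot_self_nonneg (x - y)
      simp only [add_dotProduct, dotProduct_add, sub_dotProduct, dotProduct_sub] at d1 d2
      have d3 : y ⬝ᵥ x = x ⬝ᵥ y := dotProduct_comm _ _
      rw [d3] at d1 d2
      rw [abs_le]
      constructor <;> linarith
    exact mul_le_mul a2 c1 (abs_nonneg _) (a1.trans a2)
  exact_mod_cast h1

/-- Elimination matrix. -/
def mzL (N r k : ℕ) (b : ℕ → ℕ → ℤ) : List (List ℤ) := lb r r fun i j => MZ N b k (b i) (b j)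

theorem elim_state {r L β : ℕ} {X F : ℤ} {b : ℕ → ℕ → ℤ} (h : Inter N r X F b)
    (hβ : X * (N * F ^ 2) < 2 ^ β) (hXβ : X < 2 ^ β)
    (hL : 1 + (4 * β + 5) + LB β r r ≤ L) :
    ∀ k, k < r → loop (elimStep r) k (1, gramL r N (lb r N b)) = (DZ N b k, mzL N r k b) ∧
      sz (loop (elimStep r) k (1, gramL r N (lb r N b))) ≤ L := by
  have hsz : ∀ k < r, sz (DZ N b k, mzL N r k b) ≤ L := by
    intro k hk
    rw [sz_pair]
    have h1 := sz_int_le (DZ N b k)
    have h2 : bl (DZ N b k) ≤ β := bl_le_iff.2 (by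
      rw [abs_of_pos (h.nd k hk.le)]
      exact (h.le k hk.le).trans_lt hXβ)
    have h3 : sz (mzL N r k b) ≤ LB β r r := sz_lb_le fun i hi j hj =>
      (MZ_bound h hk.le hi hj).trans_lt hβ
    simp only
    omega
  have key : ∀ k, k < r →
      loop (elimStep r) k (1, gramL r N (lb r N b)) = (DZ N b k, mzL N r k b) := by
    intro k
    induction k with
    | zero =>
      intro _
      unfold loop
      rw [DZ_zero]
      congr 1
      unfold gramL mzL
      refine tab_congr fun i hi => tab_congr fun j hj => ?_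
      change _ = MZ N b 0 (b i) (b j)
      rw [MZ_zero]
      unfold dz
      refine sum_congr rfl fun t ht => ?_
      rw [ent_lb hi (mem_range.1 ht), ent_lb hj (mem_range.1 ht)]
    | succ k ih =>
      intro hk
      change elimStep r k (loop (elimStep r) k (1, gramL r N (lb r N b))) = _
      rw [ih (by omega)]
      unfold elimStep
      simp only
      have e : ∀ i < r, ∀ j < r, ent (mzL N r k b) i j = MZ N b k (b i) (b j) :=
        fun i hi j hj => ent_lb hi hj
      congr 1
      · rw [e k (by omega) k (by omega), MZ_self]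
      · unfold mzL
        refine tab_congr fun i hi => tab_congr fun j hj => ?_
        change (ent (mzL N r k b) k k * ent (mzL N r k b) i j -
          ent (mzL N r k b) i k * ent (mzL N r k b) k j) / DZ N b k = _
        rw [e k (by omega) k (by omega), e i hi j hj, e i hi k (by omega), e k (by omega) j hj,
          ← MZ_succ, Int.mul_ediv_cancel_left _ (h.nd k (by omega)).ne']
  intro k hk
  exact ⟨key k hk, by rw [key k hk]; exact hsz k hk⟩

theorem elimL_eq {r L β : ℕ} {X F : ℤ} {b : ℕ → ℕ → ℤ} (h : Inter N r X F b)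
    (hβ : X * (N * F ^ 2) < 2 ^ β) (hXβ : X < 2 ^ β)
    (hL : 1 + (4 * β + 5) + LB β r r ≤ L) {k : ℕ} (hk : k < r) :
    elimL L r N k (lb r N b) = mzL N r k b := by
  have hs := elim_state h hβ hXβ hL
  unfold elimL
  rw [loopC_eq (fun i hi => (hs (i + 1) (by omega)).2), (hs k hk).1]

theorem redL_eq {r L β : ℕ} {X F : ℤ} {b : ℕ → ℕ → ℤ} (h : Inter N r X F b)
    (hβ : X * (N * F ^ 2) < 2 ^ β) (hXβ : X < 2 ^ β)
    (hL : 1 + (4 * β + 5) + LB β r r ≤ L) {i j : ℕ} (hi : i < r) (hj : j < r) :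
    redL L r N i (lb r N b) j = lb r N (redM N i b j) := by
  unfold redL
  rw [elimL_eq h hβ hXβ hL hj]
  have e : qOf (mzL N r j b) i j = qZ N b i j := by
    unfold qOf qZ mzL
    rw [ent_lb hi hj, ent_lb hj hj]
  rw [e]
  unfold setRow axpyRow
  unfold lb redM
  refine tab_congr fun k hk => ?_
  by_cases hki : k = i
  · rw [if_pos hki, hki, update_self]
    refine tab_congr fun t ht => ?_
    have e1 := ent_lb (b := b) hi ht
    have e2 := ent_lb (b := b) hj ht
    unfold lb at e1 e2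
    rw [e1, e2]
  · rw [if_neg hki, getD_tab_lt _ _ hk, update_of_ne hki]

/-- All hypotheses on the parameters. -/
structure Params (N r L β : ℕ) (X R : ℤ) : Prop where
  R1 : r * X ≤ R
  hβ : X * (N * (R * Kf N X R ^ r) ^ 2) < 2 ^ β
  hXβ : X < 2 ^ β
  hFβ : R * Kf N X R ^ r < 2 ^ β
  hL : 1 + (4 * β + 5) + LB β r r ≤ L
  hL' : LB β r N ≤ L

theorem Good.X1 {r : ℕ} {X R : ℤ} {b : ℕ → ℕ → ℤ} (h : Good N r X R b) : 1 ≤ X :=
  (h.nd 0 (Nat.zero_le _)).trans_le (h.le 0 (Nat.zero_le _))

theorem Params.R_one {r L β : ℕ} {X R : ℤ} (hp : Params N r L β X R) {b : ℕ → ℕ → ℤ}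
    (h : Good N r X R b) (hr : 0 < r) : 1 ≤ R := by
  have h1 := h.X1
  have h2 : (1 : ℤ) ≤ r := by exact_mod_cast hr
  have := hp.R1
  nlinarith

theorem Params.sz_le {r L β : ℕ} {X R : ℤ} (hp : Params N r L β X R) {b : ℕ → ℕ → ℤ}
    (h : Ent N r b (R * Kf N X R ^ r)) : sz (lb r N b) ≤ L :=
  (sz_lb_le fun i hi t ht => (h i hi t ht).trans_lt hp.hFβ).trans hp.hL'

theorem row_loop {r L β : ℕ} {X R : ℤ} (hp : Params N r L β X R) {b : ℕ → ℕ → ℤ}
    (h : Good N r X R b) {i : ℕ} (hi : i < r) : ∀ s ≤ i,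
    loop (fun s B => redL L r N i B (i - 1 - s)) s (lb r N b) =
      lb r N (loop (fun s b => redM N i b (i - 1 - s)) s b) := by
  have hR1 := hp.R_one h (by omega)
  intro s
  induction s with
  | zero => intro _; rfl
  | succ s ih =>
    intro hs
    change redL L r N i (loop (fun s B => redL L r N i B (i - 1 - s)) s (lb r N b))
      (i - 1 - s) = lb r N (redM N i (loop (fun s b => redM N i b (i - 1 - s)) s b) (i - 1 - s))
    rw [ih (by omega)]
    obtain ⟨-, -, -, h3, -, -, -⟩ := row_inv h.nd h.le h.ent hR1 hi s (by omega)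
    have he := row_ent h.nd h.le h.ent hR1 hi s (by omega)
    have hI : Inter N r X (R * Kf N X R ^ r)
        (loop (fun s b => redM N i b (i - 1 - s)) s b) :=
      ⟨fun k hk => by rw [h3]; exact h.nd k hk, fun k hk => by rw [h3]; exact h.le k hk, he⟩
    exact redL_eq hI hp.hβ hp.hXβ hp.hL hi (by omega)

theorem rowL_eq {r L β : ℕ} {X R : ℤ} (hp : Params N r L β X R) {b : ℕ → ℕ → ℤ}
    (h : Good N r X R b) {i : ℕ} (hi : i < r) :
    rowL L r N i (lb r N b) = lb r N (rowM N i b) := by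
  have hR1 := hp.R_one h (by omega)
  unfold rowL
  rw [loopC_eq]
  · exact row_loop hp h hi i le_rfl
  · intro s hs
    rw [row_loop hp h hi (s + 1) (by omega)]
    exact hp.sz_le (row_ent h.nd h.le h.ent hR1 hi (s + 1) (by omega))

theorem Good.ent' {r : ℕ} {X R : ℤ} {b : ℕ → ℕ → ℤ} (h : Good N r X R b) (hR : 1 ≤ R) :
    Ent N r b (R * Kf N X R ^ r) := fun i hi t ht =>
  (h.ent i hi t ht).trans (le_mul_of_one_le_right (by omega)
    (one_le_pow₀ (Kf_one_le h.X1 hR)))

theorem good_loop {r : ℕ} {X R : ℤ} (hR : r * X ≤ R) {b : ℕ → ℕ → ℤ}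
    (h : Good N r X R b) {i : ℕ} (hi : i ≤ r) :
    Good N r X R (loop (fun i b => rowM N i b) i b) := by
  obtain ⟨-, -, h3, -, h5, -⟩ := size_inv h.nd h.le h.ent hR i hi
  exact ⟨fun k hk => by rw [h3]; exact h.nd k hk, fun k hk => by rw [h3]; exact h.le k hk, h5⟩

theorem size_loop {r L β : ℕ} {X R : ℤ} (hp : Params N r L β X R) {b : ℕ → ℕ → ℤ}
    (h : Good N r X R b) : ∀ i ≤ r,
    loop (fun i B => rowL L r N i B) i (lb r N b) =
      lb r N (loop (fun i b => rowM N i b) i b) := by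
  intro i
  induction i with
  | zero => intro _; rfl
  | succ i ih =>
    intro hi
    change rowL L r N i (loop (fun i B => rowL L r N i B) i (lb r N b)) =
      lb r N (rowM N i (loop (fun i b => rowM N i b) i b))
    rw [ih (by omega)]
    exact rowL_eq hp (good_loop hp.R1 h (by omega)) (by omega)

theorem sizeL_eq {r L β : ℕ} {X R : ℤ} (hp : Params N r L β X R) {b : ℕ → ℕ → ℤ}
    (h : Good N r X R b) : sizeL L r N (lb r N b) = lb r N (sizeM N r b) := by
  unfold sizeL
  rw [loopC_eq]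
  · exact size_loop hp h r le_rfl
  · intro i hi
    rw [size_loop hp h (i + 1) (by omega)]
    exact hp.sz_le ((good_loop hp.R1 h (by omega)).ent' (hp.R_one h (by omega)))

theorem detL_eq {r L β : ℕ} {X R : ℤ} (hp : Params N r L β X R) {b : ℕ → ℕ → ℤ}
    (h : Good N r X R b) {k : ℕ} (hk : k ≤ r) : detL L r N (lb r N b) k = DZ N b k := by
  unfold detL
  split_ifs with hk0
  · rw [hk0, DZ_zero]
  · have hI : Inter N r X (R * Kf N X R ^ r) b := ⟨h.nd, h.le, h.ent' (hp.R_one h (by omega))⟩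
    rw [elimL_eq hI hp.hβ hp.hXβ hp.hL (by omega)]
    unfold mzL
    rw [ent_lb (by omega) (by omega), MZ_self]
    congr 1
    omega

theorem findFirst_congr {n : ℕ} {p q : ℕ → Bool} (h : ∀ i < n, p i = q i) :
    findFirst n p = findFirst n q := by
  by_cases hp : findFirst n p < n
  · have h1 := findFirst_true hp
    symm
    refine findFirst_spec hp (by rw [← h _ hp]; exact h1) fun i hi => ?_
    rw [← h i (by omega)]
    by_contra hc
    have hc' : p i = true := by simpa using hc
    have : ∃ i, i < n ∧ p i = true := ⟨i, by omega, hc'⟩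
    classical
    have h2 := Nat.find_spec this
    have h3 : findFirst n p = Nat.find this := findFirst_spec h2.1 h2.2 (fun j hj => by
      have := Nat.find_min this hj
      have hjn : j < n := hj.trans h2.1
      simpa [hjn] using this)
    have h4 := Nat.find_min' this ⟨by omega, hc'⟩
    omega
  · have h1 := findFirst_false hp
    rw [findFirst_of_false h1, findFirst_of_false fun i hi => by rw [← h i hi]; exact h1 i hi]

theorem swapStepL_eq {r L β : ℕ} {X R : ℤ} (hp : Params N r L β X R) {b : ℕ → ℕ → ℤ}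
    (h : Good N r X R b) : swapStepL L r N (lb r N b) = lb r N (swapStepM N r b) := by
  unfold swapStepL swapStepM swapIf
  have e : findFirst (r - 1) (violL L r N (lb r N b)) = findFirst (r - 1) (viol N b) := by
    apply findFirst_congr
    intro i hi
    unfold violL viol
    rw [detL_eq hp h (by omega), detL_eq hp h (by omega), detL_eq hp h (by omega)]
  rw [e]
  split_ifs with hf
  · unfold swapL lb swapM
    refine tab_congr fun k hk => ?_
    simp only [comp_apply]
    rcases eq_or_ne k (findFirst (r - 1) (viol N b)) with h1 | h1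
    · rw [if_pos h1, getD_tab_lt _ _ (by omega), h1, Equiv.swap_apply_left]
    · rw [if_neg h1]
      rcases eq_or_ne k (findFirst (r - 1) (viol N b) + 1) with h2 | h2
      · rw [if_pos h2, getD_tab_lt _ _ (by omega), h2, Equiv.swap_apply_right]
      · rw [if_neg h2, getD_tab_lt _ _ hk, Equiv.swap_apply_of_ne_of_ne h1 h2]
  · rfl

theorem roundL_eq {r L β : ℕ} {X R : ℤ} (hp : Params N r L β X R) {b : ℕ → ℕ → ℤ}
    (h : Good N r X R b) : swapStepL L r N (sizeL L r N (lb r N b)) = lb r N (roundM N r b) := by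
  rw [sizeL_eq hp h]
  exact swapStepL_eq hp (good_loop hp.R1 h le_rfl)

theorem rounds_eq {r L β : ℕ} {X R : ℤ} (hp : Params N r L β X R) {b : ℕ → ℕ → ℤ}
    (h : Good N r X R b) (T : ℕ) :
    (fun B => swapStepL L r N (sizeL L r N B))^[T] (lb r N b) =
      lb r N ((roundM N r)^[T] b) := by
  induction T with
  | zero => rfl
  | succ T ih =>
    rw [iterate_succ_apply', ih, iterate_succ_apply']
    exact roundL_eq hp (rounds_inv h hp.R1 T).1

theorem lllL_eq {r L β : ℕ} {X R : ℤ} (hp : Params N r L β X R) {b : ℕ → ℕ → ℤ}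
    (h : Good N r X R b) (T : ℕ) : lllL L T r N (lb r N b) = lb r N (lllM N r T b) := by
  unfold lllL
  rw [iterC_eq, rounds_eq hp h]
  · exact sizeL_eq hp (rounds_inv h hp.R1 T).1
  · intro i _
    rw [rounds_eq hp h]
    rcases Nat.eq_zero_or_pos r with hr | hr
    · subst hr
      refine le_trans ?_ hp.hL'
      simp [lb, tab, LB]
    · exact hp.sz_le ((rounds_inv h hp.R1 (i + 1)).1.ent' (hp.R_one h hr))

end Pool.Agent.H79.LLL
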