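import Pool.Agent.H79.LLL.Correct

/-!
Lattice basis reduction with concrete parameters, and its specification.
-/

namespace Pool.Agent.H79.Cx

open LLL

variable {α : Type} [Enc α]

/-- Bits of the bound on Gram determinants. -/
def xP (e r N : ℕ) : ℕ := r * (N + 2 * e)
/-- Bits of the bound on entries at the beginning of rounds. -/
def rP (e r N : ℕ) : ℕ := e + xP e r N + r
/-- Bits of the bound on all entries. -/
def fP (e r N : ℕ) : ℕ := rP e r N + r * (N + xP e r N + rP e r N + 2)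
/-- Bits of the bound on all numbers. -/
def bP (e r N : ℕ) : ℕ := xP e r N + N + 2 * fP e r N + 1
/-- Bound on the size of states. -/
def LP (e r N : ℕ) : ℕ := 1 + (4 * bP e r N + 5) + LB (bP e r N) r r + LB (bP e r N) r N
/-- Number of rounds. -/
def TP (e r N : ℕ) : ℕ := 3 * (xP e r N * r + 1)

/-- Lattice basis reduction. -/
def redBasis (e r N : ℕ) (B : List (List ℤ)) : List (List ℤ) :=
  lllL (LP e r N) (TP e r N) r N B

@[fun_prop]
theorem PT.redBasis {e r N : α → ℕ} {B : α → List (List ℤ)} (he : PT e) (hr : PT r) (hN : PT N)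
    (hB : PT B) : PT (fun x => redBasis (e x) (r x) (N x) (B x)) := by
  unfold Cx.redBasis LP TP LB bP fP rP xP
  fun_prop

end Pool.Agent.H79.Cx

namespace Pool.Agent.H79.LLL

open Finset Function Cx

variable {N : ℕ}

theorem natCast_le_two_pow (n : ℕ) : (n : ℤ) ≤ 2 ^ n := by
  exact_mod_cast Nat.lt_two_pow_self.le

theorem DZ_le_pow {r e : ℕ} {b : ℕ → ℕ → ℤ} (h : Ent N r b (2 ^ e)) (hnd : Nondeg N r b)
    {k : ℕ} (hk : k ≤ r) : DZ N b k ≤ 2 ^ (k * (N + 2 * e)) := by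
  induction k with
  | zero => simp [DZ_zero]
  | succ k ih =>
    have h1 := ih (by omega)
    have h2 : ns (bq N b) k ≤ 2 ^ (N + 2 * e) := by
      have a1 : ns (bq N b) k ≤ bq N b k ⬝ᵥ bq N b k := g_norm_le (bq N b) k (bq N b k)
      have a2 := vec_dot_le (N := N) (h k (by omega))
      have a3 : ((N : ℤ) : ℚ) ≤ ((2 ^ N : ℤ) : ℚ) := by exact_mod_cast natCast_le_two_pow N
      push_cast at a2 a3
      have a4 : (N : ℚ) * ((2 : ℚ) ^ e) ^ 2 ≤ 2 ^ N * ((2 : ℚ) ^ e) ^ 2 :=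
        mul_le_mul_of_nonneg_right a3 (by positivity)
      have a5 : (2 : ℚ) ^ N * ((2 : ℚ) ^ e) ^ 2 = 2 ^ (N + 2 * e) := by
        rw [pow_add, mul_comm 2 e, pow_mul]
      exact a1.trans (a2.trans (a4.trans a5.le))
    have h3 : ((DZ N b (k + 1) : ℤ) : ℚ) ≤ ((2 ^ ((k + 1) * (N + 2 * e)) : ℤ) : ℚ) := by
      rw [DZ_succ_cast]
      have b1 : ((DZ N b k : ℤ) : ℚ) ≤ 2 ^ (k * (N + 2 * e)) := by exact_mod_cast h1
      have b2 : (0 : ℚ) ≤ DZ N b k := by exact_mod_cast (hnd k (by omega)).le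
      have b3 := (hnd.ns_pos (k := k) (by omega)).le
      push_cast
      rw [Nat.succ_mul, pow_add]
      exact mul_le_mul b1 h2 b3 (by positivity)
    exact_mod_cast h3

theorem good_init {r e : ℕ} {b : ℕ → ℕ → ℤ} (h : Ent N r b (2 ^ e)) (hnd : Nondeg N r b) :
    Good N r (2 ^ xP e r N) (2 ^ rP e r N) b := by
  refine ⟨hnd, fun k hk => ?_, fun i hi t ht => ?_⟩
  · refine (DZ_le_pow h hnd hk).trans ?_
    unfold xP
    exact pow_le_pow_right₀ (by norm_num) (Nat.mul_le_mul_right _ hk)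
  · refine (h i hi t ht).trans ?_
    unfold rP
    exact pow_le_pow_right₀ (by norm_num) (by omega)

theorem Kf_le (e r : ℕ) : Kf N (2 ^ xP e r N) (2 ^ rP e r N) ≤
    2 ^ (N + xP e r N + rP e r N + 2) := by
  unfold Kf
  have h1 := natCast_le_two_pow N
  have h2 : (N : ℤ) * 2 ^ xP e r N ≤ 2 ^ N * 2 ^ xP e r N :=
    mul_le_mul_of_nonneg_right h1 (by positivity)
  have h3 : (1 : ℤ) ≤ 2 ^ N * 2 ^ xP e r N := by
    have a1 : (1 : ℤ) ≤ 2 ^ N := one_le_pow₀ (by norm_num)
    have a2 : (1 : ℤ) ≤ 2 ^ xP e r N := one_le_pow₀ (by norm_num)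
    nlinarith
  have h4 : (1 : ℤ) ≤ 2 ^ rP e r N := one_le_pow₀ (by norm_num)
  calc 1 + ((N : ℤ) * 2 ^ xP e r N + 1) * 2 ^ rP e r N
      ≤ (2 ^ N * 2 ^ xP e r N) * 2 ^ rP e r N +
        (2 ^ N * 2 ^ xP e r N + 2 ^ N * 2 ^ xP e r N) * 2 ^ rP e r N := by nlinarith
    _ ≤ 2 ^ (N + xP e r N + rP e r N + 2) := by
        have : (2 : ℤ) ^ (N + xP e r N + rP e r N + 2) =
          4 * ((2 ^ N * 2 ^ xP e r N) * 2 ^ rP e r N) := by
          rw [pow_add, pow_add, pow_add]; ring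
        rw [this]
        nlinarith

theorem F_le (e r : ℕ) :
    2 ^ rP e r N * Kf N (2 ^ xP e r N) (2 ^ rP e r N) ^ r ≤ 2 ^ fP e r N := by
  have h1 := Kf_le (N := N) e r
  have h0 : 0 ≤ Kf N (2 ^ xP e r N) (2 ^ rP e r N) := by
    have := Kf_one_le (N := N) (X := 2 ^ xP e r N) (R := 2 ^ rP e r N)
      (one_le_pow₀ (by norm_num)) (one_le_pow₀ (by norm_num))
    omega
  have h2 := pow_le_pow_left₀ h0 h1 r
  unfold fP
  rw [pow_add (2 : ℤ) (rP e r N)]
  refine mul_le_mul_of_nonneg_left (h2.trans (le_of_eq ?_)) (by positivity)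
  rw [← pow_mul, mul_comm]

theorem params (e r : ℕ) :
    Params N r (LP e r N) (bP e r N) (2 ^ xP e r N) (2 ^ rP e r N) := by
  have hF := F_le (N := N) e r
  have hF0 : 0 ≤ 2 ^ rP e r N * Kf N (2 ^ xP e r N) (2 ^ rP e r N) ^ r := by
    have := Kf_one_le (N := N) (X := 2 ^ xP e r N) (R := 2 ^ rP e r N)
      (one_le_pow₀ (by norm_num)) (one_le_pow₀ (by norm_num))
    have h2 : 0 ≤ Kf N (2 ^ xP e r N) (2 ^ rP e r N) := by omega
    positivity
  refine ⟨?_, ?_, ?_, ?_, ?_, ?_⟩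
  · have h1 := natCast_le_two_pow r
    unfold rP
    calc (r : ℤ) * 2 ^ xP e r N ≤ 2 ^ r * 2 ^ xP e r N :=
          mul_le_mul_of_nonneg_right h1 (by positivity)
      _ = 2 ^ (r + xP e r N) := by rw [pow_add]
      _ ≤ 2 ^ (e + xP e r N + r) := pow_le_pow_right₀ (by norm_num) (by omega)
  · have h1 := pow_le_pow_left₀ hF0 hF 2
    have h2 := natCast_le_two_pow N
    calc 2 ^ xP e r N * ((N : ℤ) * (2 ^ rP e r N *
          Kf N (2 ^ xP e r N) (2 ^ rP e r N) ^ r) ^ 2)
        ≤ 2 ^ xP e r N * (2 ^ N * (2 ^ fP e r N) ^ 2) := by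
          refine mul_le_mul_of_nonneg_left ?_ (by positivity)
          exact mul_le_mul h2 h1 (by positivity) (by positivity)
      _ = 2 ^ (xP e r N + N + 2 * fP e r N) := by
          rw [pow_add, pow_add, mul_comm 2 (fP e r N), pow_mul]; ring
      _ < 2 ^ bP e r N := pow_lt_pow_right₀ (by norm_num) (by unfold bP; omega)
  · exact pow_lt_pow_right₀ (by norm_num) (by unfold bP; omega)
  · exact hF.trans_lt (pow_lt_pow_right₀ (by norm_num) (by unfold bP; omega))
  · unfold LP; omega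
  · unfold LP; omega

theorem pot_lt {e r : ℕ} {b : ℕ → ℕ → ℤ} (hb : Good N r (2 ^ xP e r N) (2 ^ rP e r N) b) :
    3 ^ TP e r N * pot N r b < 4 ^ TP e r N := by
  have h1 : pot N r b ≤ 2 ^ (xP e r N * r) := by
    unfold pot
    calc ∏ k ∈ range r, DZ N b (k + 1) ≤ ∏ _k ∈ range r, (2 : ℤ) ^ xP e r N :=
          prod_le_prod (fun k hk => (hb.nd (k + 1) (mem_range.1 hk)).le)
            (fun k hk => hb.le (k + 1) (mem_range.1 hk))
      _ = 2 ^ (xP e r N * r) := by rw [prod_const, card_range, ← pow_mul]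
  unfold TP
  set s := xP e r N * r with hs
  have h2 : (3 : ℤ) ^ (3 * (s + 1)) = 27 * 27 ^ s := by
    rw [pow_mul]; norm_num; ring
  have h3 : (4 : ℤ) ^ (3 * (s + 1)) = 64 * 64 ^ s := by
    rw [pow_mul]; norm_num; ring
  rw [h2, h3]
  have h4 : (27 : ℤ) ^ s * 2 ^ s ≤ 64 ^ s := by
    rw [← mul_pow]
    exact pow_le_pow_left₀ (by norm_num) (by norm_num) s
  have h5 : (0 : ℤ) < 27 ^ s := by positivity
  have h6 : (0 : ℤ) < 64 ^ s := by positivity
  calc 27 * 27 ^ s * pot N r b ≤ 27 * 27 ^ s * 2 ^ s :=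
        mul_le_mul_of_nonneg_left h1 (by positivity)
    _ = 27 * (27 ^ s * 2 ^ s) := by ring
    _ < 64 * 64 ^ s := by linarith

/-- Specification of the reduction program. -/
theorem redBasis_spec {e r : ℕ} {b : ℕ → ℕ → ℤ} (h : Ent N r b (2 ^ e)) (hnd : Nondeg N r b) :
    ∃ c : ℕ → ℕ → ℤ, redBasis e r N (lb r N b) = lb r N c ∧ Reduced N r b c := by
  have hg := good_init h hnd
  have hp := params (N := N) e r
  refine ⟨lllM N r (TP e r N) b, ?_, (lllM_spec hg hp.R1 (pot_lt hg)).1⟩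
  unfold redBasis
  exact lllL_eq hp hg _

/-- Families containing an identity block are nondegenerate. -/
theorem nondeg_of_block {r c₀ : ℕ} {b : ℕ → ℕ → ℤ} (hN : c₀ + r ≤ N)
    (h : ∀ i < r, ∀ j < r, b i (c₀ + j) = if i = j then 1 else 0) : Nondeg N r b := by
  have key : ∀ (k : ℕ) (hk : k ≤ r) (m : ℕ) (hm : k ≤ m) (hmr : m < r) (x : Fin N → ℚ),
      g (bq N b) k x ⟨c₀ + m, by omega⟩ = x ⟨c₀ + m, by omega⟩ := by
    intro k
    induction k with
    | zero => intro _ m _ _ x; rfl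
    | succ k ih =>
      intro hk m hm hmr x
      rw [g_succ]
      simp only [Pi.sub_apply, Pi.smul_apply, smul_eq_mul]
      rw [ih (by omega) m (by omega) hmr x]
      have h1 : bs (bq N b) k ⟨c₀ + m, by omega⟩ = 0 := by
        unfold bs
        rw [ih (by omega) m (by omega) hmr]
        simp only [bq, vec]
        rw [h k (by omega) m hmr, if_neg (by omega)]
        simp
      rw [h1, mul_zero, sub_zero]
  have hns : ∀ k < r, 0 < ns (bq N b) k := by
    intro k hk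
    have h1 : bs (bq N b) k ⟨c₀ + k, by omega⟩ = 1 := by
      unfold bs
      rw [key k hk.le k le_rfl hk]
      simp only [bq, vec]
      rw [h k hk k hk, if_pos rfl]
      simp
    have h2 := ns_nonneg (bq N b) k
    rcases h2.lt_or_eq with h3 | h3
    · exact h3
    · exfalso
      have : bs (bq N b) k = 0 := dotProduct_self_eq_zero.1 h3.symm
      rw [this] at h1
      simp at h1
  intro k
  induction k with
  | zero => intro _; simp [DZ_zero]
  | succ k ih =>
    intro hk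
    have h1 := ih (by omega)
    have h2 : (0 : ℚ) < DZ N b (k + 1) := by
      rw [DZ_succ_cast]
      have : (0 : ℚ) < DZ N b k := by exact_mod_cast h1
      exact mul_pos this (hns k hk)
    exact_mod_cast h2

/-- The first vector of a reduced basis. -/
theorem Reduced.first {r : ℕ} {b c : ℕ → ℕ → ℤ} (h : Reduced N r b c) (hr : 0 < r) :
    (fun t : Fin N => c 0 t) ∈ Lat N r b ∧ (fun t : Fin N => c 0 t) ≠ 0 ∧
      ∀ v ∈ Lat N r b, v ≠ 0 → dz N (c 0) (c 0) ≤ 2 ^ r * (v ⬝ᵥ v) := by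
  refine ⟨?_, ?_, ?_⟩
  · rw [← h.lat]; exact mem_Lat c hr
  · intro h0
    have h1 := h.nd.ns_pos hr
    have h2 : bq N c 0 = 0 := by
      funext t
      have := congrFun h0 t
      simp only [Pi.zero_apply] at this
      simp [bq, vec, this]
    have h3 : ns (bq N c) 0 = 0 := by
      unfold ns bs
      rw [g_zero, h2, dotProduct_zero]
    linarith
  · intro v hv hv0
    obtain ⟨j, _, _, h3⟩ := h.main hv hv0
    exact h3 0 (Nat.zero_le _)

end Pool.Agent.H79.LLL
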