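import Pool.Agent.H79.LLL.Theory

/-!
Lattice basis reduction for integer families indexed by `ℕ`: operations and invariants.
-/

namespace Pool.Agent.H79.LLL

open Finset Function

variable {N : ℕ}

/-- Integer inner product on the first `N` coordinates. -/
def dz (N : ℕ) (u v : ℕ → ℤ) : ℤ := ∑ t ∈ range N, u t * v t

/-- Rational vector of the first `N` coordinates. -/
def vec (N : ℕ) (u : ℕ → ℤ) : Fin N → ℚ := fun t => (u t : ℚ)

/-- Rational family of an integer family. -/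
def bq (N : ℕ) (b : ℕ → ℕ → ℤ) : ℕ → Fin N → ℚ := fun i => vec N (b i)

theorem dz_cast (u v : ℕ → ℤ) : ((dz N u v : ℤ) : ℚ) = vec N u ⬝ᵥ vec N v := by
  unfold dz vec dotProduct
  rw [Finset.sum_range]
  push_cast
  rfl

/-- Bordered Gram determinant. -/
def MZ (N : ℕ) (b : ℕ → ℕ → ℤ) (k : ℕ) (x y : ℕ → ℤ) : ℤ :=
  (Matrix.of fun i j : Fin (k + 1) =>
    dz N (if (i : ℕ) < k then b i else x) (if (j : ℕ) < k then b j else y)).det

/-- Gram determinant. -/
def DZ (N : ℕ) (b : ℕ → ℕ → ℤ) (k : ℕ) : ℤ :=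
  (Matrix.of fun i j : Fin k => dz N (b i) (b j)).det

theorem DZ_cast (b : ℕ → ℕ → ℤ) (k : ℕ) : ((DZ N b k : ℤ) : ℚ) = DQ (bq N b) k := by
  unfold DZ DQ
  have := RingHom.map_det (Int.castRingHom ℚ) (Matrix.of fun i j : Fin k => dz N (b i) (b j))
  simp only [eq_intCast] at this
  rw [this]
  congr 1
  ext i j
  simp only [RingHom.mapMatrix_apply, Matrix.map_apply, Matrix.of_apply, eq_intCast, dz_cast]
  rfl

theorem MZ_cast (b : ℕ → ℕ → ℤ) (k : ℕ) (x y : ℕ → ℤ) : ((MZ N b k x y : ℤ) : ℚ) =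
    DQ (bq N b) k * (g (bq N b) k (vec N x) ⬝ᵥ g (bq N b) k (vec N y)) := by
  rw [← det_bord]
  unfold MZ bord
  have := RingHom.map_det (Int.castRingHom ℚ) (Matrix.of fun i j : Fin (k + 1) =>
    dz N (if (i : ℕ) < k then b i else x) (if (j : ℕ) < k then b j else y))
  simp only [eq_intCast] at this
  rw [this]
  congr 1
  ext i j
  simp only [RingHom.mapMatrix_apply, Matrix.map_apply, Matrix.of_apply, eq_intCast, dz_cast]
  congr 1
  · split_ifs <;> rfl
  · split_ifs <;> rfl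

theorem DZ_zero (b : ℕ → ℕ → ℤ) : DZ N b 0 = 1 := by simp [DZ]

theorem DZ_succ_cast (b : ℕ → ℕ → ℤ) (k : ℕ) :
    ((DZ N b (k + 1) : ℤ) : ℚ) = DZ N b k * ns (bq N b) k := by
  rw [DZ_cast, DZ_cast, DQ_succ]

theorem MZ_self (b : ℕ → ℕ → ℤ) (k : ℕ) : MZ N b k (b k) (b k) = DZ N b (k + 1) := by
  have : ((MZ N b k (b k) (b k) : ℤ) : ℚ) = DZ N b (k + 1) := by
    rw [MZ_cast, DZ_succ_cast, DZ_cast]
    rfl
  exact_mod_cast this

theorem MZ_zero (b : ℕ → ℕ → ℤ) (x y : ℕ → ℤ) : MZ N b 0 x y = dz N x y := by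
  have : ((MZ N b 0 x y : ℤ) : ℚ) = dz N x y := by
    rw [MZ_cast, dz_cast, DQ_zero, one_mul]
    rfl
  exact_mod_cast this

theorem MZ_succ (b : ℕ → ℕ → ℤ) (k : ℕ) (x y : ℕ → ℤ) :
    DZ N b k * MZ N b (k + 1) x y =
      MZ N b k (b k) (b k) * MZ N b k x y - MZ N b k x (b k) * MZ N b k (b k) y := by
  have : ((DZ N b k * MZ N b (k + 1) x y : ℤ) : ℚ) =
      ((MZ N b k (b k) (b k) * MZ N b k x y - MZ N b k x (b k) * MZ N b k (b k) y : ℤ) : ℚ) := by
    push_cast
    rw [MZ_self, DZ_succ_cast, DZ_cast, MZ_cast, MZ_cast, MZ_cast, MZ_cast, DQ_succ]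
    have h1 := dot_step (bq N b) k (vec N x) (vec N y)
    have h2 : g (bq N b) k (vec N x) ⬝ᵥ g (bq N b) k (vec N (b k)) =
        mu (bq N b) k (vec N x) * ns (bq N b) k := (mu_mul_ns _ _ _).symm
    have h3 : g (bq N b) k (vec N (b k)) ⬝ᵥ g (bq N b) k (vec N y) =
        mu (bq N b) k (vec N y) * ns (bq N b) k := by
      rw [dotProduct_comm]; exact (mu_mul_ns _ _ _).symm
    rw [h1, h2, h3]
    ring
  exact_mod_cast this

/-- Nondegeneracy of the first `r` vectors. -/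
def Nondeg (N r : ℕ) (b : ℕ → ℕ → ℤ) : Prop := ∀ k ≤ r, 0 < DZ N b k

theorem Nondeg.ns_pos {r : ℕ} {b : ℕ → ℕ → ℤ} (h : Nondeg N r b) {k : ℕ} (hk : k < r) :
    0 < ns (bq N b) k := by
  have h1 : (0 : ℚ) < DZ N b (k + 1) := by exact_mod_cast h (k + 1) hk
  have h2 : (0 : ℚ) < DZ N b k := by exact_mod_cast h k hk.le
  rw [DZ_succ_cast] at h1
  exact pos_of_mul_pos_right h1 h2.le

/-- Rounded Gram Schmidt coefficient. -/
def qZ (N : ℕ) (b : ℕ → ℕ → ℤ) (i j : ℕ) : ℤ :=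
  (2 * MZ N b j (b i) (b j) + MZ N b j (b j) (b j)) / (2 * MZ N b j (b j) (b j))

theorem qZ_spec {r : ℕ} {b : ℕ → ℕ → ℤ} (h : Nondeg N r b) {i j : ℕ} (hj : j < r) :
    |mu (bq N b) j (bq N b i) - qZ N b i j| ≤ 1 / 2 := by
  have hD : 0 < MZ N b j (b j) (b j) := by rw [MZ_self]; exact h (j + 1) hj
  have hDq : (0 : ℚ) < MZ N b j (b j) (b j) := by exact_mod_cast hD
  have hmu : mu (bq N b) j (bq N b i) = MZ N b j (b i) (b j) / MZ N b j (b j) (b j) := by
    rw [MZ_cast, MZ_cast]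
    have h2 : DQ (bq N b) j ≠ 0 := by
      rw [← DZ_cast]
      exact_mod_cast (h j hj.le).ne'
    rw [mul_div_mul_left _ _ h2]
    rfl
  rw [hmu]
  set a := MZ N b j (b i) (b j) with ha
  set d := MZ N b j (b j) (b j) with hd
  have hq : qZ N b i j = (2 * a + d) / (2 * d) := rfl
  rw [hq]
  have h1 := Int.emod_add_mul_ediv (2 * a + d) (2 * d)
  have h2 := Int.emod_nonneg (2 * a + d) (show 2 * d ≠ 0 by omega)
  have h3 := Int.emod_lt_of_pos (2 * a + d) (show 0 < 2 * d by omega)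
  set q := (2 * a + d) / (2 * d) with hqd
  have h4 : (2 * (d : ℚ)) * q ≤ 2 * a + d := by
    have : 2 * d * q ≤ 2 * a + d := by omega
    exact_mod_cast this
  have h5 : 2 * (a : ℚ) + d ≤ 2 * d * q + 2 * d := by
    have : 2 * a + d ≤ 2 * d * q + 2 * d := by omega
    exact_mod_cast this
  rw [abs_le]
  constructor
  · rw [neg_le_sub_iff_le_add, ← sub_le_iff_le_add, le_div_iff₀ hDq]
    nlinarith
  · rw [sub_le_iff_le_add, div_le_iff₀ hDq]
    nlinarith

/-- One size-reduction step. -/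
def redM (N : ℕ) (i : ℕ) (b : ℕ → ℕ → ℤ) (j : ℕ) : ℕ → ℕ → ℤ :=
  update b i (fun t => b i t - qZ N b i j * b j t)

theorem bq_redM (b : ℕ → ℕ → ℤ) (i j : ℕ) : bq N (redM N i b j) =
    update (bq N b) i (bq N b i - (qZ N b i j : ℚ) • bq N b j) := by
  funext k t
  unfold redM
  by_cases hk : k = i
  · subst hk
    simp [bq, vec]
  · simp [bq, vec, update_of_ne hk]

theorem g_redM (b : ℕ → ℕ → ℤ) {i j : ℕ} (hji : j < i) (k : ℕ) :
    g (bq N (redM N i b j)) k = g (bq N b) k := by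
  rw [bq_redM, g_update (bq N b) hji]

theorem bs_redM (b : ℕ → ℕ → ℤ) {i j : ℕ} (hji : j < i) (k : ℕ) :
    bs (bq N (redM N i b j)) k = bs (bq N b) k := by
  unfold bs
  rw [g_redM b hji, bq_redM]
  by_cases hk : k = i
  · subst hk
    rw [update_self, g_sub, g_smul, g_eq_zero _ hji, smul_zero, sub_zero]
  · rw [update_of_ne hk]

theorem ns_redM (b : ℕ → ℕ → ℤ) {i j : ℕ} (hji : j < i) (k : ℕ) :
    ns (bq N (redM N i b j)) k = ns (bq N b) k := by
  unfold ns
  rw [bs_redM b hji]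

theorem mu_redM (b : ℕ → ℕ → ℤ) {i j : ℕ} (hji : j < i) (k : ℕ) :
    mu (bq N (redM N i b j)) k = mu (bq N b) k := by
  funext x
  unfold mu
  rw [g_redM b hji, bs_redM b hji, ns_redM b hji]

theorem DZ_redM (b : ℕ → ℕ → ℤ) {i j : ℕ} (hji : j < i) (k : ℕ) :
    DZ N (redM N i b j) k = DZ N b k := by
  have : ((DZ N (redM N i b j) k : ℤ) : ℚ) = DZ N b k := by
    rw [DZ_cast, DZ_cast, DQ_eq_prod, DQ_eq_prod]
    exact prod_congr rfl fun l _ => ns_redM b hji l
  exact_mod_cast this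

/-- The lattice spanned by the first `r` vectors. -/
def Lat (N r : ℕ) (b : ℕ → ℕ → ℤ) : Submodule ℤ (Fin N → ℤ) :=
  Submodule.span ℤ {x | ∃ i < r, x = fun t : Fin N => b i t}

theorem mem_Lat {r : ℕ} (b : ℕ → ℕ → ℤ) {i : ℕ} (hi : i < r) :
    (fun t : Fin N => b i t) ∈ Lat N r b := Submodule.subset_span ⟨i, hi, rfl⟩

theorem Lat_mono {r s : ℕ} (h : r ≤ s) (b : ℕ → ℕ → ℤ) : Lat N r b ≤ Lat N s b := by
  apply Submodule.span_mono
  rintro x ⟨i, hi, rfl⟩
  exact ⟨i, by omega, rfl⟩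

theorem Lat_redM {r : ℕ} (b : ℕ → ℕ → ℤ) {i j : ℕ} (hji : j < i) (hi : i < r) :
    Lat N r (redM N i b j) = Lat N r b := by
  apply le_antisymm
  · apply Submodule.span_le.2
    rintro x ⟨k, hk, rfl⟩
    by_cases hki : k = i
    · subst hki
      have : (fun t : Fin N => redM N k b j k t) =
          (fun t : Fin N => b k t) - qZ N b k j • (fun t : Fin N => b j t) := by
        funext t
        simp [redM]
      rw [this]
      exact Submodule.sub_mem _ (mem_Lat b hk) (Submodule.smul_mem _ _ (mem_Lat b (by omega)))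
    · have : (fun t : Fin N => redM N i b j k t) = (fun t : Fin N => b k t) := by
        funext t
        simp [redM, update_of_ne hki]
      rw [this]
      exact mem_Lat b hk
  · apply Submodule.span_le.2
    rintro x ⟨k, hk, rfl⟩
    have hj : (fun t : Fin N => b j t) ∈ Lat N r (redM N i b j) := by
      have : (fun t : Fin N => redM N i b j j t) = (fun t : Fin N => b j t) := by
        funext t
        simp [redM, update_of_ne hji.ne]
      rw [← this]
      exact mem_Lat _ (by omega)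
    by_cases hki : k = i
    · subst hki
      have : (fun t : Fin N => b k t) = (fun t : Fin N => redM N k b j k t) +
          qZ N b k j • (fun t : Fin N => b j t) := by
        funext t
        simp [redM]
      rw [this]
      exact Submodule.add_mem _ (mem_Lat _ hk) (Submodule.smul_mem _ _ hj)
    · have : (fun t : Fin N => b k t) = (fun t : Fin N => redM N i b j k t) := by
        funext t
        simp [redM, update_of_ne hki]
      rw [this]
      exact mem_Lat _ hk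

/-- Exchange of two consecutive vectors. -/
def swapM (i : ℕ) (b : ℕ → ℕ → ℤ) : ℕ → ℕ → ℤ := b ∘ Equiv.swap i (i + 1)

theorem bq_swapM (b : ℕ → ℕ → ℤ) (i : ℕ) : bq N (swapM i b) = bq N b ∘ Equiv.swap i (i + 1) :=
  rfl

theorem DZ_swapM (b : ℕ → ℕ → ℤ) {i k : ℕ} (h : k ≠ i + 1) :
    DZ N (swapM i b) k = DZ N b k := by
  have : ((DZ N (swapM i b) k : ℤ) : ℚ) = DZ N b k := by
    rw [DZ_cast, DZ_cast, bq_swapM]
    rcases Nat.lt_or_ge k (i + 1) with h' | h'
    · exact DQ_swap_le _ (by omega)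
    · exact DQ_swap _ (by omega)
  exact_mod_cast this

theorem DZ_swapM_cast (b : ℕ → ℕ → ℤ) (i : ℕ) : ((DZ N (swapM i b) (i + 1) : ℤ) : ℚ) =
    DZ N b i * (ns (bq N b) (i + 1) + mu (bq N b) i (bq N b (i + 1)) ^ 2 * ns (bq N b) i) := by
  rw [DZ_succ_cast, DZ_swapM b (by omega : i ≠ i + 1), bq_swapM, ns_swap]

theorem Nondeg.swapM {r : ℕ} {b : ℕ → ℕ → ℤ} (h : Nondeg N r b) {i : ℕ} (hi : i + 1 < r) :
    Nondeg N r (swapM i b) := by
  intro k hk
  by_cases hki : k = i + 1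
  · subst hki
    have : (0 : ℚ) < DZ N (LLL.swapM i b) (i + 1) := by
      rw [DZ_swapM_cast]
      have h1 : (0 : ℚ) < DZ N b i := by exact_mod_cast h i (by omega)
      have h2 := h.ns_pos hi
      have h3 := h.ns_pos (k := i) (by omega)
      positivity
    exact_mod_cast this
  · rw [DZ_swapM b hki]
    exact h k hk

theorem Nondeg.redM {r : ℕ} {b : ℕ → ℕ → ℤ} (h : Nondeg N r b) {i j : ℕ} (hji : j < i) :
    Nondeg N r (redM N i b j) := by
  intro k hk
  rw [DZ_redM b hji]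
  exact h k hk

theorem Lat_swapM {r : ℕ} (b : ℕ → ℕ → ℤ) {i : ℕ} (hi : i + 1 < r) :
    Lat N r (swapM i b) = Lat N r b := by
  have key : ∀ k < r, Equiv.swap i (i + 1) k < r := by
    intro k hk
    rcases eq_or_ne k i with h | h
    · subst h; rw [Equiv.swap_apply_left]; exact hi
    · rcases eq_or_ne k (i + 1) with h' | h'
      · subst h'; rw [Equiv.swap_apply_right]; omega
      · rw [Equiv.swap_apply_of_ne_of_ne h h']; exact hk
  unfold Lat
  congr 1
  ext x
  constructor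
  · rintro ⟨k, hk, rfl⟩
    exact ⟨_, key k hk, rfl⟩
  · rintro ⟨k, hk, rfl⟩
    refine ⟨_, key k hk, ?_⟩
    funext t
    simp [swapM]

end Pool.Agent.H79.LLL
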