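import Pool.Agent.H79.LLL.Rounds

/-!
Lattice basis reduction as a program on lists of lists of integers.
-/

namespace Pool.Agent.H79.Cx

open Function

variable {α : Type} [Enc α]

/-- Entry of a matrix given as a list of rows. -/
def ent (B : List (List ℤ)) (i j : ℕ) : ℤ := (B.getD i []).getD j 0

@[fun_prop]
theorem PT.ent {B : α → List (List ℤ)} {i j : α → ℕ} (hB : PT B) (hi : PT i) (hj : PT j) :
    PT (fun x => ent (B x) (i x) (j x)) := by
  unfold Cx.ent; fun_prop

/-- Gram matrix. -/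
def gramL (r N : ℕ) (B : List (List ℤ)) : List (List ℤ) :=
  tab r fun i => tab r fun j => ∑ t ∈ Finset.range N, ent B i t * ent B j t

@[fun_prop]
theorem PT.gramL {r N : α → ℕ} {B : α → List (List ℤ)} (hr : PT r) (hN : PT N) (hB : PT B) :
    PT (fun x => gramL (r x) (N x) (B x)) := by
  unfold Cx.gramL; fun_prop

/-- One elimination step. -/
def elimStep (r k : ℕ) (s : ℤ × List (List ℤ)) : ℤ × List (List ℤ) :=
  (ent s.2 k k, tab r fun i => tab r fun j =>
    (ent s.2 k k * ent s.2 i j - ent s.2 i k * ent s.2 k j) / s.1)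

@[fun_prop]
theorem PT.elimStep {r k : α → ℕ} {s : α → ℤ × List (List ℤ)} (hr : PT r) (hk : PT k)
    (hs : PT s) : PT (fun x => elimStep (r x) (k x) (s x)) := by
  unfold Cx.elimStep; fun_prop

/-- Elimination of the first `k` rows. -/
def elimL (L r N k : ℕ) (B : List (List ℤ)) : List (List ℤ) :=
  (loopC L (elimStep r) k (1, gramL r N B)).2

@[fun_prop]
theorem PT.elimL {L r N k : α → ℕ} {B : α → List (List ℤ)} (hL : PT L) (hr : PT r) (hN : PT N)
    (hk : PT k) (hB : PT B) : PT (fun x => elimL (L x) (r x) (N x) (k x) (B x)) := by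
  unfold Cx.elimL
  refine PT.snd' (PT.loopC (f := fun x => Cx.elimStep (r x)) ?_ hL hk (by fun_prop))
  fun_prop

/-- Rounded quotient. -/
def qOf (M : List (List ℤ)) (i j : ℕ) : ℤ := (2 * ent M i j + ent M j j) / (2 * ent M j j)

@[fun_prop]
theorem PT.qOf {B : α → List (List ℤ)} {i j : α → ℕ} (hB : PT B) (hi : PT i) (hj : PT j) :
    PT (fun x => qOf (B x) (i x) (j x)) := by
  unfold Cx.qOf; fun_prop

/-- Row `i` minus `q` times row `j`. -/
def axpyRow (N : ℕ) (B : List (List ℤ)) (i j : ℕ) (q : ℤ) : List ℤ :=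
  tab N fun t => ent B i t - q * ent B j t

@[fun_prop]
theorem PT.axpyRow {N i j : α → ℕ} {B : α → List (List ℤ)} {q : α → ℤ} (hN : PT N) (hi : PT i)
    (hj : PT j) (hB : PT B) (hq : PT q) :
    PT (fun x => axpyRow (N x) (B x) (i x) (j x) (q x)) := by
  unfold Cx.axpyRow; fun_prop

/-- Replacement of a row. -/
def setRow (r : ℕ) (B : List (List ℤ)) (i : ℕ) (w : List ℤ) : List (List ℤ) :=
  tab r fun k => if k = i then w else B.getD k []

@[fun_prop]
theorem PT.setRow {r i : α → ℕ} {B : α → List (List ℤ)} {w : α → List ℤ} (hr : PT r) (hi : PT i)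
    (hB : PT B) (hw : PT w) : PT (fun x => setRow (r x) (B x) (i x) (w x)) := by
  unfold Cx.setRow; fun_prop

/-- One size-reduction step. -/
def redL (L r N i : ℕ) (B : List (List ℤ)) (j : ℕ) : List (List ℤ) :=
  setRow r B i (axpyRow N B i j (qOf (elimL L r N j B) i j))

@[fun_prop]
theorem PT.redL {L r N i j : α → ℕ} {B : α → List (List ℤ)} (hL : PT L) (hr : PT r) (hN : PT N)
    (hi : PT i) (hj : PT j) (hB : PT B) :
    PT (fun x => redL (L x) (r x) (N x) (i x) (B x) (j x)) := by
  unfold Cx.redL; fun_prop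

/-- Reduction of one row. -/
def rowL (L r N i : ℕ) (B : List (List ℤ)) : List (List ℤ) :=
  loopC L (fun s B => redL L r N i B (i - 1 - s)) i B

@[fun_prop]
theorem PT.rowL {L r N i : α → ℕ} {B : α → List (List ℤ)} (hL : PT L) (hr : PT r) (hN : PT N)
    (hi : PT i) (hB : PT B) :
    PT (fun x => rowL (L x) (r x) (N x) (i x) (B x)) := by
  unfold Cx.rowL
  refine PT.loopC (f := fun x s B => Cx.redL (L x) (r x) (N x) (i x) B (i x - 1 - s)) ?_
    hL hi hB
  fun_prop

/-- Size reduction. -/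
def sizeL (L r N : ℕ) (B : List (List ℤ)) : List (List ℤ) :=
  loopC L (fun i B => rowL L r N i B) r B

@[fun_prop]
theorem PT.sizeL {L r N : α → ℕ} {B : α → List (List ℤ)} (hL : PT L) (hr : PT r) (hN : PT N)
    (hB : PT B) :
    PT (fun x => sizeL (L x) (r x) (N x) (B x)) := by
  unfold Cx.sizeL
  refine PT.loopC (f := fun x i B => Cx.rowL (L x) (r x) (N x) i B) ?_ hL hr hB
  fun_prop

/-- Gram determinants. -/
def detL (L r N : ℕ) (B : List (List ℤ)) (k : ℕ) : ℤ :=
  if k = 0 then 1 else ent (elimL L r N (k - 1) B) (k - 1) (k - 1)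

@[fun_prop]
theorem PT.detL {L r N k : α → ℕ} {B : α → List (List ℤ)} (hL : PT L) (hr : PT r) (hN : PT N)
    (hk : PT k) (hB : PT B) :
    PT (fun x => detL (L x) (r x) (N x) (B x) (k x)) := by
  unfold Cx.detL; fun_prop

/-- Violation test. -/
def violL (L r N : ℕ) (B : List (List ℤ)) (i : ℕ) : Bool :=
  decide (2 * detL L r N B i * detL L r N B (i + 2) < detL L r N B (i + 1) ^ 2)

@[fun_prop]
theorem PT.violL {L r N i : α → ℕ} {B : α → List (List ℤ)} (hL : PT L) (hr : PT r) (hN : PT N)
    (hi : PT i) (hB : PT B) :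
    PT (fun x => violL (L x) (r x) (N x) (B x) (i x)) := by
  unfold Cx.violL; fun_prop

/-- Exchange of two rows. -/
def swapL (r : ℕ) (B : List (List ℤ)) (i : ℕ) : List (List ℤ) :=
  tab r fun k => if k = i then B.getD (i + 1) [] else if k = i + 1 then B.getD i []
    else B.getD k []

@[fun_prop]
theorem PT.swapL {r i : α → ℕ} {B : α → List (List ℤ)} (hr : PT r) (hi : PT i) (hB : PT B) :
    PT (fun x => swapL (r x) (B x) (i x)) := by
  unfold Cx.swapL; fun_prop

/-- Exchange of two rows if the index is small enough. -/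
def swapIf (r : ℕ) (B : List (List ℤ)) (i : ℕ) : List (List ℤ) :=
  if i < r - 1 then swapL r B i else B

@[fun_prop]
theorem PT.swapIf {r i : α → ℕ} {B : α → List (List ℤ)} (hr : PT r) (hi : PT i) (hB : PT B) :
    PT (fun x => swapIf (r x) (B x) (i x)) := by
  unfold Cx.swapIf; fun_prop

/-- Swap at the first violation. -/
def swapStepL (L r N : ℕ) (B : List (List ℤ)) : List (List ℤ) :=
  swapIf r B (findFirst (r - 1) (violL L r N B))

@[fun_prop]
theorem PT.swapStepL {L r N : α → ℕ} {B : α → List (List ℤ)} (hL : PT L) (hr : PT r) (hN : PT N)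
    (hB : PT B) :
    PT (fun x => swapStepL (L x) (r x) (N x) (B x)) := by
  unfold Cx.swapStepL
  refine PT.swapIf hr (PT.findFirst (p := fun x => Cx.violL (L x) (r x) (N x) (B x)) ?_ ?_) hB
  · fun_prop
  · fun_prop

/-- The reduction algorithm with explicit parameters. -/
def lllL (L T r N : ℕ) (B : List (List ℤ)) : List (List ℤ) :=
  sizeL L r N (iterC L (fun B => swapStepL L r N (sizeL L r N B)) T B)

@[fun_prop]
theorem PT.lllL {L T r N : α → ℕ} {B : α → List (List ℤ)} (hL : PT L) (hT : PT T) (hr : PT r)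
    (hN : PT N) (hB : PT B) :
    PT (fun x => lllL (L x) (T x) (r x) (N x) (B x)) := by
  unfold Cx.lllL
  refine PT.sizeL hL hr hN (PT.iterC
    (f := fun x B => Cx.swapStepL (L x) (r x) (N x) (Cx.sizeL (L x) (r x) (N x) B)) ?_ hT hL hB)
  fun_prop

attribute [irreducible] ent gramL elimStep elimL qOf axpyRow setRow redL rowL sizeL detL violL
  swapL swapIf swapStepL lllL

end Pool.Agent.H79.Cx
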