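import Pool.Agent.H79.LLL.Math
import Pool.Agent.H79.PT.Loop

/-!
Size reduction: invariants.
-/

namespace Pool.Agent.H79.LLL

open Finset Function Cx

variable {N : ℕ}

/-- Reduction of one row by all previous ones. -/
def rowM (N i : ℕ) (b : ℕ → ℕ → ℤ) : ℕ → ℕ → ℤ :=
  loop (fun s b => redM N i b (i - 1 - s)) i b

/-- Size reduction. -/
def sizeM (N r : ℕ) (b : ℕ → ℕ → ℤ) : ℕ → ℕ → ℤ := loop (fun i b => rowM N i b) r b

/-- Bound on the entries. -/
def Ent (N r : ℕ) (b : ℕ → ℕ → ℤ) (E : ℤ) : Prop := ∀ i < r, ∀ t < N, |b i t| ≤ E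

/-- Row `k` is size-reduced. -/
def SR (N : ℕ) (b : ℕ → ℕ → ℤ) (k : ℕ) : Prop :=
  ∀ j < k, |mu (bq N b) j (bq N b k)| ≤ 1 / 2

theorem Nondeg.DZ_pos {r : ℕ} {b : ℕ → ℕ → ℤ} (h : Nondeg N r b) {k : ℕ} (hk : k ≤ r) :
    (1 : ℚ) ≤ DZ N b k := by
  exact_mod_cast h k hk

theorem ns_le {r : ℕ} {b : ℕ → ℕ → ℤ} (hb : Nondeg N r b) {X : ℤ}
    (hX : ∀ k ≤ r, DZ N b k ≤ X) {l : ℕ} (hl : l < r) : ns (bq N b) l ≤ X := by
  have h1 := hb.DZ_pos hl.le
  have h2 : ((DZ N b (l + 1) : ℤ) : ℚ) ≤ X := by exact_mod_cast hX (l + 1) hl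
  rw [DZ_succ_cast] at h2
  have h3 := (hb.ns_pos hl).le
  nlinarith

theorem one_le_X_mul_ns {r : ℕ} {b : ℕ → ℕ → ℤ} (hb : Nondeg N r b) {X : ℤ}
    (hX : ∀ k ≤ r, DZ N b k ≤ X) {l : ℕ} (hl : l < r) : 1 ≤ X * ns (bq N b) l := by
  have h1 := hb.DZ_pos (k := l + 1) hl
  rw [DZ_succ_cast] at h1
  have h2 : ((DZ N b l : ℤ) : ℚ) ≤ X := by exact_mod_cast hX l hl.le
  have h3 := (hb.ns_pos hl).le
  nlinarith

theorem vec_dot_le {u : ℕ → ℤ} {E : ℤ} (h : ∀ t < N, |u t| ≤ E) :
    vec N u ⬝ᵥ vec N u ≤ N * E ^ 2 := by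
  unfold vec dotProduct
  calc ∑ t : Fin N, ((u t : ℚ)) * u t ≤ ∑ _t : Fin N, (E : ℚ) ^ 2 := by
        refine sum_le_sum fun t _ => ?_
        have h1 : |(u t : ℚ)| ≤ E := by exact_mod_cast h t t.2
        have h2 := sq_le_sq' (by linarith [neg_abs_le (u t : ℚ)]) ((le_abs_self _).trans h1)
        nlinarith
    _ = N * E ^ 2 := by simp

theorem coord_sq_le (u : ℕ → ℤ) {t : ℕ} (ht : t < N) : ((u t : ℚ)) ^ 2 ≤ vec N u ⬝ᵥ vec N u := by
  unfold vec dotProduct
  have := Finset.single_le_sum (f := fun t : Fin N => ((u t : ℚ)) * u t)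
    (fun i _ => mul_self_nonneg _) (Finset.mem_univ (⟨t, ht⟩ : Fin N))
  simp only at this
  nlinarith

theorem abs_le_of_sq_le_int {z M : ℤ} (h : z ^ 2 ≤ M) : |z| ≤ M := by
  have h1 : |z| ^ 2 = z ^ 2 := sq_abs z
  have h2 : 0 ≤ |z| := abs_nonneg z
  rcases eq_or_lt_of_le h2 with h3 | h3
  · rw [← h3]; nlinarith
  · have : 1 ≤ |z| := h3
    nlinarith

theorem ent_of_SR {r : ℕ} {b : ℕ → ℕ → ℤ} (hb : Nondeg N r b) {X : ℤ}
    (hX : ∀ k ≤ r, DZ N b k ≤ X) {k : ℕ} (hk : k < r) (hSR : SR N b k) :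
    ∀ t < N, |b k t| ≤ r * X := by
  intro t ht
  apply abs_le_of_sq_le_int
  have h1 := coord_sq_le (b k) ht
  have h2 := dot_eq (bq N b) k (bq N b k) (bq N b k)
  have h3 : g (bq N b) k (bq N b k) ⬝ᵥ g (bq N b) k (bq N b k) = ns (bq N b) k := rfl
  have h4 : ∑ l ∈ range k, mu (bq N b) l (bq N b k) * mu (bq N b) l (bq N b k) * ns (bq N b) l ≤
      ∑ l ∈ range k, (X : ℚ) := by
    refine sum_le_sum fun l hl => ?_
    rw [mem_range] at hl
    have a1 := ns_le hb hX (l := l) (by omega)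
    have a2 := (hb.ns_pos (k := l) (by omega)).le
    have a3 := abs_le.1 (hSR l hl)
    have a4 : mu (bq N b) l (bq N b k) * mu (bq N b) l (bq N b k) ≤ 1 := by nlinarith
    nlinarith
  rw [sum_const, card_range, nsmul_eq_mul] at h4
  have h5 := ns_le hb hX hk
  have hX0 : (0 : ℚ) ≤ X := by
    have := (hb.ns_pos hk).le
    linarith
  have h6 : ((b k t : ℤ) : ℚ) ^ 2 ≤ (r : ℚ) * X := by
    have hkr : ((k : ℚ) + 1) ≤ r := by exact_mod_cast hk
    have h7 : vec N (b k) ⬝ᵥ vec N (b k) = bq N b k ⬝ᵥ bq N b k := rfl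
    nlinarith
  exact_mod_cast h6

/-- The growth factor. -/
def Kf (N : ℕ) (X R : ℤ) : ℤ := 1 + (N * X + 1) * R

theorem row_inv {r : ℕ} {b : ℕ → ℕ → ℤ} (hb : Nondeg N r b) {X R : ℤ}
    (hX : ∀ k ≤ r, DZ N b k ≤ X) (hR : Ent N r b R) (hR1 : 1 ≤ R) {i : ℕ} (hi : i < r) :
    ∀ s ≤ i,
      (∀ k, k ≠ i → loop (fun s b => redM N i b (i - 1 - s)) s b k = b k) ∧
      (∀ k, mu (bq N (loop (fun s b => redM N i b (i - 1 - s)) s b)) k = mu (bq N b) k) ∧
      (∀ k, ns (bq N (loop (fun s b => redM N i b (i - 1 - s)) s b)) k = ns (bq N b) k) ∧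
      (∀ k, DZ N (loop (fun s b => redM N i b (i - 1 - s)) s b) k = DZ N b k) ∧
      (∀ j, i - s ≤ j → j < i →
        |mu (bq N b) j (bq N (loop (fun s b => redM N i b (i - 1 - s)) s b) i)| ≤ 1 / 2) ∧
      (∀ t < N, |loop (fun s b => redM N i b (i - 1 - s)) s b i t| ≤ R * Kf N X R ^ s) ∧
      Lat N r (loop (fun s b => redM N i b (i - 1 - s)) s b) = Lat N r b := by
  have hX1 : 1 ≤ X := (hb 0 (Nat.zero_le _)).trans_le (hX 0 (Nat.zero_le _))
  have hN : 1 ≤ N := by
    by_contra hN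
    have : N = 0 := by omega
    subst this
    have h1 := hb.ns_pos hi
    have h2 : ns (bq 0 b) i = 0 := by simp [ns, dotProduct]
    linarith
  have hK1 : 1 ≤ Kf N X R := by
    unfold Kf
    have : 0 ≤ ((N : ℤ) * X + 1) * R := by positivity
    linarith
  intro s
  induction s with
  | zero =>
    intro _
    refine ⟨fun _ _ => rfl, fun _ => rfl, fun _ => rfl, fun _ => rfl, fun j h1 h2 => ?_,
      fun t ht => ?_, rfl⟩
    · omega
    · simpa [loop] using hR i hi t ht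
  | succ s ih =>
    intro hs
    obtain ⟨h1, h2, h2', h3, h4, h5, h6⟩ := ih (by omega)
    set c := loop (fun s b => redM N i b (i - 1 - s)) s b with hc
    have hstep : loop (fun s b => redM N i b (i - 1 - s)) (s + 1) b =
      redM N i c (i - 1 - s) := rfl
    rw [hstep]
    set j := i - 1 - s with hj
    have hji : j < i := by omega
    have hjr : j < r := by omega
    have hcN : Nondeg N r c := fun k hk => by rw [h3]; exact hb k hk
    have hcj : bq N c j = bq N b j := by unfold bq; rw [h1 j hji.ne]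
    have hci : bq N (redM N i c j) i = bq N c i - (qZ N c i j : ℚ) • bq N b j := by
      rw [bq_redM, update_self, hcj]
    have hq := qZ_spec hcN (i := i) hjr
    rw [h2] at hq
    refine ⟨fun k hk => ?_, fun k => ?_, fun k => ?_, fun k => ?_, fun j' hj1 hj2 => ?_,
      fun t ht => ?_, ?_⟩
    · unfold redM
      rw [update_of_ne hk, h1 k hk]
    · rw [mu_redM c hji, h2]
    · rw [ns_redM c hji, h2']
    · rw [DZ_redM c hji, h3]
    · rw [hci, mu_sub, mu_smul]
      rcases Nat.lt_or_ge j j' with hjj | hjj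
      · rw [mu_eq_zero (bq N b) hjj, mul_zero, sub_zero]
        exact h4 j' (by omega) hj2
      · have : j' = j := by omega
        subst this
        rw [mu_self (bq N b) (hb.ns_pos hjr).ne', mul_one]
        exact hq
    · have hred : redM N i c j i t = c i t - qZ N c i j * c j t := by
        unfold redM; rw [update_self]
      rw [hred, h1 j hji.ne]
      set E := R * Kf N X R ^ s with hE
      have hE1 : R ≤ E := by
        have : 1 ≤ Kf N X R ^ s := one_le_pow₀ hK1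
        nlinarith
      have e1 := mu_sq_le (bq N b) j (bq N c i)
      have e2 := one_le_X_mul_ns hb hX hjr
      have e3 : bq N c i ⬝ᵥ bq N c i ≤ N * (E : ℚ) ^ 2 := vec_dot_le h5
      have hXq : (1 : ℚ) ≤ X := by exact_mod_cast hX1
      have hNq : (1 : ℚ) ≤ N := by exact_mod_cast hN
      have hEq : (1 : ℚ) ≤ E := by exact_mod_cast hR1.trans hE1
      have e4 : mu (bq N b) j (bq N c i) ^ 2 ≤ (N * X * E : ℚ) ^ 2 := by
        have f1 : mu (bq N b) j (bq N c i) ^ 2 ≤ X * (mu (bq N b) j (bq N c i) ^ 2 *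
            ns (bq N b) j) := by
          nlinarith [sq_nonneg (mu (bq N b) j (bq N c i))]
        have f2 : X * (mu (bq N b) j (bq N c i) ^ 2 * ns (bq N b) j) ≤ X * (N * (E : ℚ) ^ 2) :=
          mul_le_mul_of_nonneg_left (e1.trans e3) (by linarith)
        have f3 : (X : ℚ) * (N * (E : ℚ) ^ 2) ≤ (N * X * E : ℚ) ^ 2 := by
          have : (N * X * E : ℚ) ^ 2 = (X * (N * (E : ℚ) ^ 2)) * (N * X) := by ring
          rw [this]
          refine le_mul_of_one_le_right (by positivity) ?_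
          nlinarith
        linarith
      have e5 : |mu (bq N b) j (bq N c i)| ≤ N * X * E :=
        abs_le_of_sq_le_sq e4 (by positivity)
      have e6 : |(qZ N c i j : ℚ)| ≤ N * X * E + 1 := by
        have := abs_sub_abs_le_abs_sub ((qZ N c i j : ℚ)) (mu (bq N b) j (bq N c i))
        rw [abs_sub_comm] at this
        linarith
      have e7 : |qZ N c i j| ≤ N * X * E + 1 := by exact_mod_cast e6
      have e8 := hR j hjr t ht
      have e9 := h5 t ht
      calc |c i t - qZ N c i j * b j t| ≤ |c i t| + |qZ N c i j * b j t| := abs_sub _ _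
        _ = |c i t| + |qZ N c i j| * |b j t| := by rw [abs_mul]
        _ ≤ E + (N * X * E + 1) * R := by
            have := mul_le_mul e7 e8 (abs_nonneg _) (by positivity)
            linarith
        _ ≤ E * Kf N X R := by
            unfold Kf
            nlinarith
        _ = R * Kf N X R ^ (s + 1) := by rw [hE]; ring
    · rw [Lat_redM c hji hi, h6]

theorem Kf_one_le {X R : ℤ} (hX : 1 ≤ X) (hR : 1 ≤ R) : 1 ≤ Kf N X R := by
  unfold Kf
  have : 0 ≤ ((N : ℤ) * X + 1) * R := by positivity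
  linarith

theorem row_ent {r : ℕ} {b : ℕ → ℕ → ℤ} (hb : Nondeg N r b) {X R : ℤ}
    (hX : ∀ k ≤ r, DZ N b k ≤ X) (hR : Ent N r b R) (hR1 : 1 ≤ R) {i : ℕ} (hi : i < r) :
    ∀ s ≤ i, Ent N r (loop (fun s b => redM N i b (i - 1 - s)) s b) (R * Kf N X R ^ r) := by
  intro s hs
  have hX1 : 1 ≤ X := (hb 0 (Nat.zero_le _)).trans_le (hX 0 (Nat.zero_le _))
  have hK1 := Kf_one_le (N := N) hX1 hR1
  obtain ⟨h1, -, -, -, -, h5, -⟩ := row_inv hb hX hR hR1 hi s hs
  intro k hk t ht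
  by_cases hki : k = i
  · subst hki
    refine (h5 t ht).trans ?_
    exact mul_le_mul_of_nonneg_left (pow_le_pow_right₀ hK1 (by omega)) (by omega)
  · rw [h1 k hki]
    refine (hR k hk t ht).trans ?_
    exact le_mul_of_one_le_right (by omega) (one_le_pow₀ hK1)

theorem size_inv {r : ℕ} {b : ℕ → ℕ → ℤ} (hb : Nondeg N r b) {X R : ℤ}
    (hX : ∀ k ≤ r, DZ N b k ≤ X) (hR : Ent N r b R) (hR1 : r * X ≤ R) :
    ∀ i ≤ r,
      (∀ k, mu (bq N (loop (fun i b => rowM N i b) i b)) k = mu (bq N b) k) ∧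
      (∀ k, ns (bq N (loop (fun i b => rowM N i b) i b)) k = ns (bq N b) k) ∧
      (∀ k, DZ N (loop (fun i b => rowM N i b) i b) k = DZ N b k) ∧
      (∀ k < i, SR N (loop (fun i b => rowM N i b) i b) k) ∧
      Ent N r (loop (fun i b => rowM N i b) i b) R ∧
      Lat N r (loop (fun i b => rowM N i b) i b) = Lat N r b := by
  have hX1 : 1 ≤ X := (hb 0 (Nat.zero_le _)).trans_le (hX 0 (Nat.zero_le _))
  intro i
  induction i with
  | zero =>
    intro _
    exact ⟨fun _ => rfl, fun _ => rfl, fun _ => rfl, fun k hk => by omega, hR, rfl⟩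
  | succ i ih =>
    intro hi
    obtain ⟨h1, h2, h3, h4, h5, h6⟩ := ih (by omega)
    set c := loop (fun i b => rowM N i b) i b with hc
    have hstep : loop (fun i b => rowM N i b) (i + 1) b = rowM N i c := rfl
    rw [hstep]
    have hcN : Nondeg N r c := fun k hk => by rw [h3]; exact hb k hk
    have hcX : ∀ k ≤ r, DZ N c k ≤ X := fun k hk => by rw [h3]; exact hX k hk
    have hr1 : (1 : ℤ) ≤ r := by exact_mod_cast (by omega : 1 ≤ r)
    have hR1' : 1 ≤ R := by nlinarith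
    obtain ⟨a1, a2, a3, a4, a5, a6, a7⟩ := row_inv hcN hcX h5 hR1' (by omega : i < r) i le_rfl
    change (∀ k, k ≠ i → rowM N i c k = c k) at a1
    change (∀ k, mu (bq N (rowM N i c)) k = mu (bq N c) k) at a2
    change (∀ k, ns (bq N (rowM N i c)) k = ns (bq N c) k) at a3
    change (∀ k, DZ N (rowM N i c) k = DZ N c k) at a4
    change (∀ j, i - i ≤ j → j < i → |mu (bq N c) j (bq N (rowM N i c) i)| ≤ 1 / 2) at a5
    change Lat N r (rowM N i c) = Lat N r c at a7
    have hrN : Nondeg N r (rowM N i c) := fun k hk => by rw [a4]; exact hcN k hk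
    have hrX : ∀ k ≤ r, DZ N (rowM N i c) k ≤ X := fun k hk => by rw [a4]; exact hcX k hk
    have hSR : ∀ k < i + 1, SR N (rowM N i c) k := by
      intro k hk j hj
      rw [a2]
      by_cases hki : k = i
      · subst hki
        exact a5 j (by omega) hj
      · have : bq N (rowM N i c) k = bq N c k := by unfold bq; rw [a1 k hki]
        rw [this]
        exact h4 k (by omega) j hj
    refine ⟨fun k => by rw [a2, h1], fun k => by rw [a3, h2], fun k => by rw [a4, h3], hSR, ?_,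
      by rw [a7, h6]⟩
    intro k hk t ht
    by_cases hki : k = i
    · subst hki
      exact (ent_of_SR hrN hrX hk (hSR k (by omega)) t ht).trans hR1
    · rw [a1 k hki]
      exact h5 k hk t ht

end Pool.Agent.H79.LLL
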