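import Pool.Agent.H79.LLL.Reduce

/-!
Rounds of lattice basis reduction, potential argument, and the final estimate.
-/

namespace Pool.Agent.H79.Cx

theorem findFirst_of_false {n : ℕ} {p : ℕ → Bool} (h : ∀ i < n, p i = false) :
    findFirst n p = n := by
  unfold findFirst
  have : ∀ (l : List ℕ), (∀ i ∈ l, p i = false) →
      l.foldl (fun s i => if p i = true then i else s) n = n := by
    intro l
    induction l with
    | nil => intro _; rfl
    | cons a l ih =>
      intro hl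
      rw [List.foldl_cons, if_neg (by simp [hl a (by simp)])]
      exact ih fun i hi => hl i (by simp [hi])
  exact this _ fun i hi => h i (by simpa using hi)

theorem findFirst_true {n : ℕ} {p : ℕ → Bool} (h : findFirst n p < n) :
    p (findFirst n p) = true := by
  by_cases h' : ∃ i, i < n ∧ p i = true
  · classical
    have h1 := Nat.find_spec h'
    have h2 : findFirst n p = Nat.find h' := findFirst_spec h1.1 h1.2 (fun i hi => by
      have := Nat.find_min h' hi
      have hin : i < n := hi.trans h1.1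
      simpa [hin] using this)
    rw [h2]
    exact h1.2
  · have := findFirst_of_false (n := n) (p := p) (fun i hi => by
      by_contra hc
      exact h' ⟨i, hi, by simpa using hc⟩)
    omega

theorem findFirst_false {n : ℕ} {p : ℕ → Bool} (h : ¬ findFirst n p < n) :
    ∀ i < n, p i = false := by
  intro i hi
  by_contra hc
  have h' : ∃ i, i < n ∧ p i = true := ⟨i, hi, by simpa using hc⟩
  classical
  have h1 := Nat.find_spec h'
  have h2 : findFirst n p = Nat.find h' := findFirst_spec h1.1 h1.2 (fun i hi => by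
      have := Nat.find_min h' hi
      have hin : i < n := hi.trans h1.1
      simpa [hin] using this)
  omega

end Pool.Agent.H79.Cx

namespace Pool.Agent.H79.LLL

open Finset Function Cx

variable {N : ℕ}

/-- Violation of the Siegel condition. -/
def viol (N : ℕ) (b : ℕ → ℕ → ℤ) (i : ℕ) : Bool :=
  decide (2 * DZ N b i * DZ N b (i + 2) < DZ N b (i + 1) ^ 2)

/-- Swap at the first violation. -/
def swapStepM (N r : ℕ) (b : ℕ → ℕ → ℤ) : ℕ → ℕ → ℤ :=
  if findFirst (r - 1) (viol N b) < r - 1 then swapM (findFirst (r - 1) (viol N b)) b else b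

/-- One round. -/
def roundM (N r : ℕ) (b : ℕ → ℕ → ℤ) : ℕ → ℕ → ℤ := swapStepM N r (sizeM N r b)

/-- Siegel condition. -/
def Siegel (N r : ℕ) (b : ℕ → ℕ → ℤ) : Prop :=
  ∀ i, i + 1 < r → DZ N b (i + 1) ^ 2 ≤ 2 * DZ N b i * DZ N b (i + 2)

/-- Potential. -/
def pot (N r : ℕ) (b : ℕ → ℕ → ℤ) : ℤ := ∏ k ∈ range r, DZ N b (k + 1)

theorem Siegel.congr {r : ℕ} {b c : ℕ → ℕ → ℤ} (h : ∀ k, DZ N c k = DZ N b k)
    (hb : Siegel N r b) : Siegel N r c := by
  intro i hi
  rw [h, h, h]
  exact hb i hi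

theorem pot_congr {r : ℕ} {b c : ℕ → ℕ → ℤ} (h : ∀ k, DZ N c k = DZ N b k) :
    pot N r c = pot N r b := prod_congr rfl fun k _ => h _

theorem Nondeg.pot_pos {r : ℕ} {b : ℕ → ℕ → ℤ} (h : Nondeg N r b) : 0 < pot N r b :=
  prod_pos fun k hk => h (k + 1) (mem_range.1 hk)

theorem swap_decrease {r : ℕ} {b : ℕ → ℕ → ℤ} (hb : Nondeg N r b) {i : ℕ} (hi : i + 1 < r)
    (hSR : SR N b (i + 1)) (hv : 2 * DZ N b i * DZ N b (i + 2) < DZ N b (i + 1) ^ 2) :
    4 * DZ N (swapM i b) (i + 1) ≤ 3 * DZ N b (i + 1) := by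
  have h1 := hb.DZ_pos (k := i) (by omega)
  have h2 := hb.ns_pos (k := i) (by omega)
  have h3 := hb.ns_pos (k := i + 1) (by omega)
  have h4 := hSR i (by omega)
  have h5 : ((DZ N b (i + 1) : ℤ) : ℚ) = DZ N b i * ns (bq N b) i := DZ_succ_cast b i
  have h6 : ((DZ N b (i + 2) : ℤ) : ℚ) = DZ N b (i + 1) * ns (bq N b) (i + 1) :=
    DZ_succ_cast b (i + 1)
  have h7 : (2 : ℚ) * DZ N b i * DZ N b (i + 2) < DZ N b (i + 1) ^ 2 := by exact_mod_cast hv
  have h8 : (0 : ℚ) < DZ N b (i + 1) := by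
    have := hb.DZ_pos (k := i + 1) (by omega); linarith
  rw [h6] at h7
  have h9 : 2 * ((DZ N b i : ℤ) : ℚ) * ns (bq N b) (i + 1) < DZ N b (i + 1) := by
    have : (2 * ((DZ N b i : ℤ) : ℚ) * ns (bq N b) (i + 1)) * DZ N b (i + 1) <
        DZ N b (i + 1) * DZ N b (i + 1) := by nlinarith
    exact lt_of_mul_lt_mul_right this h8.le
  have h10 : mu (bq N b) i (bq N b (i + 1)) ^ 2 ≤ 1 / 4 := by
    have := abs_le.1 h4
    nlinarith
  have h11 : (4 : ℚ) * DZ N (swapM i b) (i + 1) ≤ 3 * DZ N b (i + 1) := by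
    rw [DZ_swapM_cast]
    have : ((DZ N b i : ℤ) : ℚ) * (mu (bq N b) i (bq N b (i + 1)) ^ 2 * ns (bq N b) i) ≤
        1 / 4 * DZ N b (i + 1) := by
      rw [h5]
      have : ((DZ N b i : ℤ) : ℚ) * (mu (bq N b) i (bq N b (i + 1)) ^ 2 * ns (bq N b) i) =
        mu (bq N b) i (bq N b (i + 1)) ^ 2 * (DZ N b i * ns (bq N b) i) := by ring
      rw [this]
      exact mul_le_mul_of_nonneg_right h10 (by positivity)
    nlinarith
  exact_mod_cast h11

/-- Invariants of the state at the beginning of a round. -/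
structure Good (N r : ℕ) (X R : ℤ) (b : ℕ → ℕ → ℤ) : Prop where
  nd : Nondeg N r b
  le : ∀ k ≤ r, DZ N b k ≤ X
  ent : Ent N r b R

theorem round_inv {r : ℕ} {b : ℕ → ℕ → ℤ} {X R : ℤ} (hb : Good N r X R b) (hR : r * X ≤ R) :
    Good N r X R (roundM N r b) ∧ Lat N r (roundM N r b) = Lat N r b ∧
    (Siegel N r b → Siegel N r (roundM N r b)) ∧
    (Siegel N r (roundM N r b) ∨ 4 * pot N r (roundM N r b) ≤ 3 * pot N r b) := by
  obtain ⟨h1, h2, h3, h4, h5, h6⟩ := size_inv hb.nd hb.le hb.ent hR r le_rfl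
  change (∀ k, DZ N (sizeM N r b) k = DZ N b k) at h3
  change (∀ k < r, SR N (sizeM N r b) k) at h4
  change Ent N r (sizeM N r b) R at h5
  change Lat N r (sizeM N r b) = Lat N r b at h6
  set c := sizeM N r b with hc
  have hcN : Nondeg N r c := fun k hk => by rw [h3]; exact hb.nd k hk
  have hcX : ∀ k ≤ r, DZ N c k ≤ X := fun k hk => by rw [h3]; exact hb.le k hk
  have hround : roundM N r b = swapStepM N r c := rfl
  rw [hround]
  unfold swapStepM
  split_ifs with hf
  · have hv := findFirst_true hf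
    set i := findFirst (r - 1) (viol N c) with hi
    have hv' : 2 * DZ N c i * DZ N c (i + 2) < DZ N c (i + 1) ^ 2 := by
      simpa [viol] using hv
    have hir : i + 1 < r := by omega
    have hdec := swap_decrease hcN hir (h4 (i + 1) hir) hv'
    have hsN := hcN.swapM (i := i) hir
    refine ⟨⟨hsN, fun k hk => ?_, fun k hk t ht => ?_⟩, ?_, ?_, ?_⟩
    · by_cases hki : k = i + 1
      · subst hki
        have := hcX (i + 1) hk
        have := hsN (i + 1) hk
        omega
      · rw [DZ_swapM c hki]; exact hcX k hk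
    · unfold swapM
      simp only [comp_apply]
      apply h5 _ _ t ht
      rcases eq_or_ne k i with h | h
      · subst h; rw [Equiv.swap_apply_left]; exact hir
      · rcases eq_or_ne k (i + 1) with h' | h'
        · rw [h', Equiv.swap_apply_right]; omega
        · rw [Equiv.swap_apply_of_ne_of_ne h h']; exact hk
    · rw [Lat_swapM c hir, h6]
    · intro hS
      exfalso
      have := hS i hir
      rw [h3, h3, h3] at hv'
      omega
    · right
      have hir' : i ∈ range r := mem_range.2 (by omega)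
      rw [← pot_congr h3]
      unfold pot
      rw [← mul_prod_erase _ _ hir', ← mul_prod_erase (range r) (fun k => DZ N c (k + 1)) hir']
      have hrest : ∏ k ∈ (range r).erase i, DZ N (swapM i c) (k + 1) =
          ∏ k ∈ (range r).erase i, DZ N c (k + 1) := by
        refine prod_congr rfl fun k hk => ?_
        rw [mem_erase] at hk
        exact DZ_swapM c (by omega)
      rw [hrest]
      have hpos : 0 ≤ ∏ k ∈ (range r).erase i, DZ N c (k + 1) := by
        refine prod_nonneg fun k hk => ?_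
        rw [mem_erase, mem_range] at hk
        exact (hcN (k + 1) hk.2).le
      nlinarith
  · have hnv := findFirst_false hf
    have hS : Siegel N r c := by
      intro i hi
      have := hnv i (by omega)
      simp only [viol, decide_eq_false_iff_not, not_lt] at this
      exact this
    exact ⟨⟨hcN, hcX, h5⟩, h6, fun _ => hS, Or.inl hS⟩

theorem rounds_inv {r : ℕ} {b : ℕ → ℕ → ℤ} {X R : ℤ} (hb : Good N r X R b) (hR : r * X ≤ R)
    (T : ℕ) :
    Good N r X R ((roundM N r)^[T] b) ∧ Lat N r ((roundM N r)^[T] b) = Lat N r b ∧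
    (Siegel N r ((roundM N r)^[T] b) ∨
      4 ^ T * pot N r ((roundM N r)^[T] b) ≤ 3 ^ T * pot N r b) := by
  induction T with
  | zero => exact ⟨hb, rfl, Or.inr (by simp)⟩
  | succ T ih =>
    obtain ⟨h1, h2, h3⟩ := ih
    rw [iterate_succ_apply']
    obtain ⟨a1, a2, a3, a4⟩ := round_inv h1 hR
    refine ⟨a1, by rw [a2, h2], ?_⟩
    rcases h3 with h3 | h3
    · exact Or.inl (a3 h3)
    · rcases a4 with a4 | a4
      · exact Or.inl a4
      · right
        rw [pow_succ, pow_succ]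
        have : (0 : ℤ) < 4 ^ T := by positivity
        nlinarith

/-- The reduced family. -/
def lllM (N r T : ℕ) (b : ℕ → ℕ → ℤ) : ℕ → ℕ → ℤ := sizeM N r ((roundM N r)^[T] b)

/-- The conclusion of lattice basis reduction. -/
structure Reduced (N r : ℕ) (b c : ℕ → ℕ → ℤ) : Prop where
  lat : Lat N r c = Lat N r b
  nd : Nondeg N r c
  sr : ∀ k < r, SR N c k
  siegel : Siegel N r c

theorem lllM_spec {r : ℕ} {b : ℕ → ℕ → ℤ} {X R : ℤ} (hb : Good N r X R b) (hR : r * X ≤ R)
    {T : ℕ} (hT : 3 ^ T * pot N r b < 4 ^ T) :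
    Reduced N r b (lllM N r T b) ∧ Good N r X R (lllM N r T b) := by
  obtain ⟨h1, h2, h3⟩ := rounds_inv hb hR T
  obtain ⟨a1, a2, a3, a4, a5, a6⟩ := size_inv h1.nd h1.le h1.ent hR r le_rfl
  change (∀ k, DZ N (lllM N r T b) k = DZ N ((roundM N r)^[T] b) k) at a3
  have hN : Nondeg N r (lllM N r T b) := fun k hk => by rw [a3]; exact h1.nd k hk
  refine ⟨⟨a6.trans h2, hN, a4, ?_⟩, ⟨hN, fun k hk => by rw [a3]; exact h1.le k hk, a5⟩⟩
  rcases h3 with h3 | h3
  · exact h3.congr a3
  · exfalso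
    have := h1.nd.pot_pos
    have h4 : (0 : ℤ) < 4 ^ T := by positivity
    nlinarith

theorem ns_le_succ {r : ℕ} {c : ℕ → ℕ → ℤ} (hc : Nondeg N r c) (hS : Siegel N r c) {i : ℕ}
    (hi : i + 1 < r) : ns (bq N c) i ≤ 2 * ns (bq N c) (i + 1) := by
  have h1 := hc.DZ_pos (k := i) (by omega)
  have h5 : ((DZ N c (i + 1) : ℤ) : ℚ) = DZ N c i * ns (bq N c) i := DZ_succ_cast c i
  have h6 : ((DZ N c (i + 2) : ℤ) : ℚ) = DZ N c (i + 1) * ns (bq N c) (i + 1) :=
    DZ_succ_cast c (i + 1)
  have h7 : ((DZ N c (i + 1) : ℤ) : ℚ) ^ 2 ≤ 2 * DZ N c i * DZ N c (i + 2) := by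
    exact_mod_cast hS i hi
  have h8 : (1 : ℚ) ≤ DZ N c (i + 1) := hc.DZ_pos (k := i + 1) (by omega)
  rw [h6] at h7
  have h9 : (DZ N c i * DZ N c (i + 1) : ℚ) * ns (bq N c) i ≤
      (DZ N c i * DZ N c (i + 1) : ℚ) * (2 * ns (bq N c) (i + 1)) := by
    have : (DZ N c i * DZ N c (i + 1) : ℚ) * ns (bq N c) i = DZ N c (i + 1) ^ 2 := by
      rw [mul_right_comm, ← h5]; ring
    rw [this]
    linarith
  exact le_of_mul_le_mul_left h9 (by positivity)

theorem ns_le_pow {r : ℕ} {c : ℕ → ℕ → ℤ} (hc : Nondeg N r c) (hS : Siegel N r c) {i : ℕ} :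
    ∀ d, i + d < r → ns (bq N c) i ≤ 2 ^ d * ns (bq N c) (i + d) := by
  intro d
  induction d with
  | zero => intro _; simp
  | succ d ih =>
    intro hd
    have h1 := ih (by omega)
    have h2 := ns_le_succ hc hS (i := i + d) (by omega)
    calc ns (bq N c) i ≤ 2 ^ d * ns (bq N c) (i + d) := h1
      _ ≤ 2 ^ d * (2 * ns (bq N c) (i + d + 1)) := mul_le_mul_of_nonneg_left h2 (by positivity)
      _ = 2 ^ (d + 1) * ns (bq N c) (i + (d + 1)) := by rw [pow_succ, ← add_assoc]; ring

theorem norm_le_ns {r : ℕ} {b c : ℕ → ℕ → ℤ} (h : Reduced N r b c) {i j : ℕ} (hij : i ≤ j)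
    (hj : j < r) : (dz N (c i) (c i) : ℚ) ≤ 2 ^ r * ns (bq N c) j := by
  rw [dz_cast]
  have h2 := dot_eq (bq N c) i (bq N c i) (bq N c i)
  have h3 : g (bq N c) i (bq N c i) ⬝ᵥ g (bq N c) i (bq N c i) = ns (bq N c) i := rfl
  have h0 : vec N (c i) ⬝ᵥ vec N (c i) = bq N c i ⬝ᵥ bq N c i := rfl
  have hpos := h.nd.ns_pos hj
  have h4 : ∑ l ∈ range i, mu (bq N c) l (bq N c i) * mu (bq N c) l (bq N c i) * ns (bq N c) l ≤
      ∑ l ∈ range i, ns (bq N c) l := by
    refine sum_le_sum fun l hl => ?_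
    rw [mem_range] at hl
    have a2 := (h.nd.ns_pos (k := l) (by omega)).le
    have a3 := abs_le.1 (h.sr i (by omega) l hl)
    have a4 : mu (bq N c) l (bq N c i) * mu (bq N c) l (bq N c i) ≤ 1 := by nlinarith
    nlinarith
  have h5 : ∑ l ∈ range (i + 1), ns (bq N c) l ≤
      ∑ l ∈ range (i + 1), 2 ^ (j - l) * ns (bq N c) j := by
    refine sum_le_sum fun l hl => ?_
    rw [mem_range] at hl
    have := ns_le_pow h.nd h.siegel (i := l) (j - l) (by omega)
    rwa [show l + (j - l) = j by omega] at this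
  rw [sum_range_succ] at h5
  have h6 : ∀ i, i ≤ j → ∑ l ∈ range (i + 1), (2 : ℚ) ^ (j - l) ≤ 2 ^ (j + 1) - 2 ^ (j - i) := by
    intro i
    induction i with
    | zero =>
      intro _
      simp only [zero_add, sum_range_one, Nat.sub_zero, pow_succ]
      linarith
    | succ i ih =>
      intro hi
      rw [sum_range_succ]
      have h1 := ih (by omega)
      have h2 : (2 : ℚ) ^ (j - i) = 2 * 2 ^ (j - (i + 1)) := by
        rw [← pow_succ']
        congr 1
        omega
      linarith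
  have h7 := h6 i hij
  have h8 : ∑ l ∈ range (i + 1), 2 ^ (j - l) * ns (bq N c) j ≤ 2 ^ r * ns (bq N c) j := by
    rw [← sum_mul]
    refine mul_le_mul_of_nonneg_right ?_ hpos.le
    have a1 : (2 : ℚ) ^ (j + 1) ≤ 2 ^ r := pow_le_pow_right₀ (by norm_num) (by omega)
    have a2 : (0 : ℚ) < 2 ^ (j - i) := by positivity
    linarith
  linarith

theorem exists_coeffs {r : ℕ} {c : ℕ → ℕ → ℤ} {v : Fin N → ℤ} (hv : v ∈ Lat N r c) :
    ∃ a : ℕ → ℤ, (∀ i, r ≤ i → a i = 0) ∧ v = ∑ i ∈ range r, a i • (fun t : Fin N => c i t) := by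
  have e : {x : Fin N → ℤ | ∃ i < r, x = fun t : Fin N => c i t} =
      Set.range (fun i : Fin r => (fun t : Fin N => c i t)) := by
    ext x
    constructor
    · rintro ⟨i, hi, rfl⟩
      exact ⟨⟨i, hi⟩, rfl⟩
    · rintro ⟨i, rfl⟩
      exact ⟨i, i.2, rfl⟩
  unfold Lat at hv
  rw [e, Submodule.mem_span_range_iff_exists_fun] at hv
  obtain ⟨a, ha⟩ := hv
  refine ⟨fun i => if h : i < r then a ⟨i, h⟩ else 0, fun i hi => dif_neg (by omega), ?_⟩
  rw [← ha, Finset.sum_range]
  refine Finset.sum_congr rfl fun i _ => ?_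
  beta_reduce
  rw [dif_pos i.2]

theorem g_sum (b : ℕ → Fin N → ℚ) (k : ℕ) (s : Finset ℕ) (f : ℕ → Fin N → ℚ) :
    g b k (∑ i ∈ s, f i) = ∑ i ∈ s, g b k (f i) := by
  classical
  induction s using Finset.induction_on with
  | empty => simp [g_apply_zero]
  | insert a s ha ih => rw [sum_insert ha, sum_insert ha, g_add, ih]

/-- Main estimate. -/
theorem Reduced.main {r : ℕ} {b c : ℕ → ℕ → ℤ} (h : Reduced N r b c) {v : Fin N → ℤ}
    (hv : v ∈ Lat N r b) (hv0 : v ≠ 0) :
    ∃ j < r, v ∈ Lat N (j + 1) c ∧ ∀ i ≤ j, dz N (c i) (c i) ≤ 2 ^ r * (v ⬝ᵥ v) := by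
  classical
  rw [← h.lat] at hv
  obtain ⟨a, ha0, ha⟩ := exists_coeffs hv
  have hex : ∃ i, i < r ∧ a i ≠ 0 := by
    by_contra hcon
    push Not at hcon
    apply hv0
    rw [ha]
    exact sum_eq_zero fun i hi => by rw [hcon i (mem_range.1 hi), zero_smul]
  obtain ⟨j, hj⟩ : ∃ j, (j < r ∧ a j ≠ 0) ∧ ∀ i, j < i → a i = 0 := by
    have hne : ((range r).filter fun i => a i ≠ 0).Nonempty := by
      obtain ⟨i, hi, hai⟩ := hex
      exact ⟨i, mem_filter.2 ⟨mem_range.2 hi, hai⟩⟩
    refine ⟨((range r).filter fun i => a i ≠ 0).max' hne, ?_, ?_⟩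
    · have := max'_mem _ hne
      rw [mem_filter, mem_range] at this
      exact this
    · intro i hi
      by_contra hai
      have hir : i < r := by
        by_contra hir
        exact hai (ha0 i (by omega))
      have := le_max' ((range r).filter fun i => a i ≠ 0) i
        (mem_filter.2 ⟨mem_range.2 hir, hai⟩)
      omega
  obtain ⟨⟨hjr, haj⟩, hmax⟩ := hj
  have hsub : v = ∑ i ∈ range (j + 1), a i • (fun t : Fin N => c i t) := by
    rw [ha]
    symm
    apply sum_subset
    · intro i hi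
      rw [mem_range] at hi ⊢
      omega
    · intro i _ hi
      rw [mem_range] at hi
      rw [hmax i (by omega), zero_smul]
  refine ⟨j, hjr, ?_, ?_⟩
  · rw [hsub]
    refine Submodule.sum_mem _ fun i hi => Submodule.smul_mem _ _ (mem_Lat c (mem_range.1 hi))
  · intro i hij
    set w : Fin N → ℚ := fun t => (v t : ℚ) with hw
    have hwv : w = ∑ i ∈ range (j + 1), (a i : ℚ) • bq N c i := by
      funext t
      rw [hw]
      simp only
      rw [hsub]
      simp [bq, vec]
    have hg : g (bq N c) j w = (a j : ℚ) • bs (bq N c) j := by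
      rw [hwv, g_sum, sum_range_succ, g_smul]
      have : ∑ i ∈ range j, g (bq N c) j ((a i : ℚ) • bq N c i) = 0 :=
        sum_eq_zero fun i hi => by rw [g_smul, g_eq_zero _ (mem_range.1 hi), smul_zero]
      rw [this, zero_add]
      rfl
    have h1 := g_norm_le (bq N c) j w
    rw [hg, smul_dotProduct, dotProduct_smul, smul_eq_mul, smul_eq_mul] at h1
    have h2 : (1 : ℚ) ≤ (a j : ℚ) * a j := by
      have : 1 ≤ a j * a j := by
        have : 0 < a j * a j := mul_self_pos.2 haj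
        omega
      exact_mod_cast this
    have h3 := h.nd.ns_pos hjr
    have h4 : ns (bq N c) j ≤ w ⬝ᵥ w := by
      have e : bs (bq N c) j ⬝ᵥ bs (bq N c) j = ns (bq N c) j := rfl
      rw [e] at h1
      nlinarith
    have h5 := norm_le_ns h hij hjr
    have h6 : w ⬝ᵥ w = ((v ⬝ᵥ v : ℤ) : ℚ) := by
      simp [dotProduct, hw]
    have h7 : ((dz N (c i) (c i) : ℤ) : ℚ) ≤ ((2 ^ r * (v ⬝ᵥ v) : ℤ) : ℚ) := by
      push_cast
      rw [← h6]
      refine h5.trans (mul_le_mul_of_nonneg_left h4 (by positivity))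
    exact_mod_cast h7

end Pool.Agent.H79.LLL
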