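import Mathlib

/-!
Gram Schmidt elimination over the rationals for families indexed by `ℕ`.
-/

namespace Pool.Agent.H79.LLL

open Finset Function

variable {N : ℕ}

/-- Successive elimination of `b 0, b 1, ...`. -/
def g (b : ℕ → Fin N → ℚ) : ℕ → (Fin N → ℚ) → Fin N → ℚ
  | 0, x => x
  | k + 1, x => g b k x -
      ((g b k x ⬝ᵥ g b k (b k)) / (g b k (b k) ⬝ᵥ g b k (b k))) • g b k (b k)

/-- The `k`-th Gram Schmidt vector. -/
def bs (b : ℕ → Fin N → ℚ) (k : ℕ) : Fin N → ℚ := g b k (b k)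

/-- Squared norm of the `k`-th Gram Schmidt vector. -/
def ns (b : ℕ → Fin N → ℚ) (k : ℕ) : ℚ := bs b k ⬝ᵥ bs b k

/-- Gram Schmidt coefficient. -/
def mu (b : ℕ → Fin N → ℚ) (k : ℕ) (x : Fin N → ℚ) : ℚ := (g b k x ⬝ᵥ bs b k) / ns b k

theorem g_succ (b : ℕ → Fin N → ℚ) (k : ℕ) (x : Fin N → ℚ) :
    g b (k + 1) x = g b k x - mu b k x • bs b k := rfl

theorem g_zero (b : ℕ → Fin N → ℚ) (x : Fin N → ℚ) : g b 0 x = x := rfl

theorem dot_self_nonneg (x : Fin N → ℚ) : 0 ≤ x ⬝ᵥ x :=
  Finset.sum_nonneg fun _ _ => mul_self_nonneg _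

theorem ns_nonneg (b : ℕ → Fin N → ℚ) (k : ℕ) : 0 ≤ ns b k := dot_self_nonneg _

theorem g_add (b : ℕ → Fin N → ℚ) (k : ℕ) (x y : Fin N → ℚ) :
    g b k (x + y) = g b k x + g b k y := by
  induction k with
  | zero => rfl
  | succ k ih =>
    simp only [g_succ, mu, ih, add_dotProduct, add_div, add_smul]
    abel

theorem g_smul (b : ℕ → Fin N → ℚ) (k : ℕ) (c : ℚ) (x : Fin N → ℚ) :
    g b k (c • x) = c • g b k x := by
  induction k with
  | zero => rfl
  | succ k ih =>
    simp only [g_succ, mu, ih, smul_dotProduct, smul_eq_mul, mul_div_assoc, smul_sub, mul_smul]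

theorem g_sub (b : ℕ → Fin N → ℚ) (k : ℕ) (x y : Fin N → ℚ) :
    g b k (x - y) = g b k x - g b k y := by
  have := g_add b k x ((-1 : ℚ) • y)
  rw [g_smul] at this
  simpa [sub_eq_add_neg] using this

theorem g_apply_zero (b : ℕ → Fin N → ℚ) (k : ℕ) : g b k 0 = 0 := by
  have := g_smul b k 0 0
  simpa using this

theorem mu_add (b : ℕ → Fin N → ℚ) (k : ℕ) (x y : Fin N → ℚ) :
    mu b k (x + y) = mu b k x + mu b k y := by
  simp only [mu, g_add, add_dotProduct, add_div]

theorem mu_smul (b : ℕ → Fin N → ℚ) (k : ℕ) (c : ℚ) (x : Fin N → ℚ) :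
    mu b k (c • x) = c * mu b k x := by
  simp only [mu, g_smul, smul_dotProduct, smul_eq_mul, mul_div_assoc]

theorem mu_sub (b : ℕ → Fin N → ℚ) (k : ℕ) (x y : Fin N → ℚ) :
    mu b k (x - y) = mu b k x - mu b k y := by
  simp only [mu, g_sub, sub_dotProduct, sub_div]

/-- `mu * ns` is the inner product. -/
theorem mu_mul_ns (b : ℕ → Fin N → ℚ) (k : ℕ) (x : Fin N → ℚ) :
    mu b k x * ns b k = g b k x ⬝ᵥ bs b k := by
  unfold mu
  by_cases h : ns b k = 0
  · have h0 : bs b k = 0 := dotProduct_self_eq_zero.1 h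
    rw [h, mul_zero, h0, dotProduct_zero]
  · rw [div_mul_cancel₀ _ h]

theorem g_self_succ (b : ℕ → Fin N → ℚ) (k : ℕ) : g b (k + 1) (b k) = 0 := by
  rw [g_succ]
  change bs b k - mu b k (b k) • bs b k = 0
  unfold mu
  change bs b k - (ns b k / ns b k) • bs b k = 0
  by_cases h : ns b k = 0
  · have h0 : bs b k = 0 := dotProduct_self_eq_zero.1 h
    rw [h0]; simp
  · rw [div_self h, one_smul, sub_self]

theorem g_eq_zero (b : ℕ → Fin N → ℚ) {j k : ℕ} (h : j < k) : g b k (b j) = 0 := by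
  induction k with
  | zero => omega
  | succ k ih =>
    rcases Nat.lt_or_ge j k with hjk | hjk
    · rw [g_succ, mu, ih hjk, zero_dotProduct, zero_div, zero_smul, sub_zero]
    · have : j = k := by omega
      subst this
      exact g_self_succ b j

theorem mu_eq_zero (b : ℕ → Fin N → ℚ) {j k : ℕ} (h : j < k) : mu b k (b j) = 0 := by
  rw [mu, g_eq_zero b h, zero_dotProduct, zero_div]

theorem mu_self (b : ℕ → Fin N → ℚ) {k : ℕ} (h : ns b k ≠ 0) : mu b k (b k) = 1 := by
  change ns b k / ns b k = 1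
  exact div_self h

/-- The basic identity. -/
theorem dot_step (b : ℕ → Fin N → ℚ) (k : ℕ) (x y : Fin N → ℚ) :
    g b k x ⬝ᵥ g b k y = g b (k + 1) x ⬝ᵥ g b (k + 1) y + mu b k x * mu b k y * ns b k := by
  simp only [g_succ, sub_dotProduct, dotProduct_sub, smul_dotProduct, dotProduct_smul,
    smul_eq_mul]
  have h1 := mu_mul_ns b k x
  have h2 := mu_mul_ns b k y
  have h3 : bs b k ⬝ᵥ bs b k = ns b k := rfl
  have h4 : bs b k ⬝ᵥ g b k y = g b k y ⬝ᵥ bs b k := dotProduct_comm _ _
  rw [h4, ← h1, ← h2, h3]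
  ring

theorem dot_eq (b : ℕ → Fin N → ℚ) (k : ℕ) (x y : Fin N → ℚ) :
    x ⬝ᵥ y = g b k x ⬝ᵥ g b k y + ∑ l ∈ range k, mu b l x * mu b l y * ns b l := by
  induction k with
  | zero => simp [g_zero]
  | succ k ih => rw [ih, dot_step b k x y, sum_range_succ]; ring

theorem g_norm_le (b : ℕ → Fin N → ℚ) (k : ℕ) (x : Fin N → ℚ) : g b k x ⬝ᵥ g b k x ≤ x ⬝ᵥ x := by
  rw [dot_eq b k x x]
  have : 0 ≤ ∑ l ∈ range k, mu b l x * mu b l x * ns b l :=
    sum_nonneg fun l _ => mul_nonneg (mul_self_nonneg _) (ns_nonneg b l)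
  linarith

theorem mu_sq_le (b : ℕ → Fin N → ℚ) (k : ℕ) (x : Fin N → ℚ) :
    mu b k x ^ 2 * ns b k ≤ x ⬝ᵥ x := by
  have h1 := g_norm_le b k x
  have h2 := dot_step b k x x
  have h3 := dot_self_nonneg (g b (k + 1) x)
  have h4 : mu b k x ^ 2 * ns b k = mu b k x * mu b k x * ns b k := by ring
  linarith

/-- Matrix used for the determinant formula. -/
def bordM (b : ℕ → Fin N → ℚ) (k : ℕ) (x : Fin N → ℚ) : Matrix (Fin (k + 1)) (Fin (k + 1)) ℚ :=
  fun i l => if l = i then 1 else mu b l (if (i : ℕ) < k then b i else x)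

/-- Bordered Gram matrix. -/
def bord (b : ℕ → Fin N → ℚ) (k : ℕ) (x y : Fin N → ℚ) :
    Matrix (Fin (k + 1)) (Fin (k + 1)) ℚ :=
  fun i j => (if (i : ℕ) < k then b i else x) ⬝ᵥ (if (j : ℕ) < k then b j else y)

theorem det_bordM (b : ℕ → Fin N → ℚ) (k : ℕ) (x : Fin N → ℚ) : (bordM b k x).det = 1 := by
  rw [Matrix.det_of_isLowerTriangular]
  · simp [bordM]
  · intro i l hil
    have hil' : (i : ℕ) < l := hil
    have hl : (l : ℕ) < k + 1 := l.2
    have hne : l ≠ i := by
      intro h; subst h; omega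
    unfold bordM
    rw [if_neg hne, if_pos (by omega), mu_eq_zero b hil']

theorem bord_eq (b : ℕ → Fin N → ℚ) (k : ℕ) (x y : Fin N → ℚ) :
    bord b k x y = bordM b k x * Matrix.diagonal (fun l : Fin (k + 1) =>
      if (l : ℕ) < k then ns b l else g b k x ⬝ᵥ g b k y) * (bordM b k y).transpose := by
  ext i j
  rw [Matrix.mul_apply]
  simp only [Matrix.mul_diagonal, Matrix.transpose_apply]
  rw [Fin.sum_univ_castSucc]
  have hterm : ∀ l : Fin k, bordM b k x i l.castSucc *
      (if ((l.castSucc : Fin (k + 1)) : ℕ) < k then ns b l.castSucc else g b k x ⬝ᵥ g b k y) *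
      bordM b k y j l.castSucc =
      mu b l (if (i : ℕ) < k then b i else x) * mu b l (if (j : ℕ) < k then b j else y) *
        ns b l := by
    intro l
    have hl : (l : ℕ) < k := l.2
    have e : ((l.castSucc : Fin (k + 1)) : ℕ) = l := rfl
    rw [e, if_pos hl]
    by_cases h0 : ns b l = 0
    · rw [h0]; ring
    · have hM : ∀ (z : Fin N → ℚ) (i : Fin (k + 1)), bordM b k z i l.castSucc =
          mu b l (if (i : ℕ) < k then b i else z) := by
        intro z i
        unfold bordM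
        split_ifs with h1 h2 h3
        · have : (i : ℕ) = l := by rw [← h1]; rfl
          rw [this, mu_self b h0]
        · have : (i : ℕ) = l := by rw [← h1]; rfl
          omega
        · rfl
        · rfl
      rw [hM, hM]; ring
  rw [Finset.sum_congr rfl fun l _ => hterm l]
  have hsum := Fin.sum_univ_eq_sum_range (fun l =>
      mu b l (if (i : ℕ) < k then b i else x) * mu b l (if (j : ℕ) < k then b j else y) *
        ns b l) k
  rw [hsum]
  have hlast : (Fin.last k : Fin (k + 1)).val = k := rfl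
  unfold bord
  rw [dot_eq b k, add_comm]
  congr 1
  rw [hlast, if_neg (lt_irrefl k)]
  by_cases hi : (i : ℕ) < k
  · have : bordM b k x i (Fin.last k) = 0 := by
      unfold bordM
      rw [if_neg (by intro h; rw [← h] at hi; exact absurd hi (by simp)), if_pos hi, hlast,
        mu_eq_zero b hi]
    rw [this, if_pos hi, g_eq_zero b hi, zero_dotProduct]; ring
  · have hi' : i = Fin.last k := by
      apply Fin.ext
      have := i.2
      rw [hlast]; omega
    by_cases hj : (j : ℕ) < k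
    · have : bordM b k y j (Fin.last k) = 0 := by
        unfold bordM
        rw [if_neg (by intro h; rw [← h] at hj; exact absurd hj (by simp)), if_pos hj, hlast,
          mu_eq_zero b hj]
      rw [this, if_pos hj, g_eq_zero b hj, dotProduct_zero]; ring
    · have hj' : j = Fin.last k := by
        apply Fin.ext
        have := j.2
        rw [hlast]; omega
      rw [if_neg hi, if_neg hj, hi', hj']
      simp [bordM]

/-- Gram determinants. -/
def DQ (b : ℕ → Fin N → ℚ) (k : ℕ) : ℚ :=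
  (Matrix.of fun i j : Fin k => b i ⬝ᵥ b j).det

@[simp] theorem DQ_zero (b : ℕ → Fin N → ℚ) : DQ b 0 = 1 := by simp [DQ]

theorem det_bord' (b : ℕ → Fin N → ℚ) (k : ℕ) (x y : Fin N → ℚ) :
    (bord b k x y).det = (∏ l ∈ range k, ns b l) * (g b k x ⬝ᵥ g b k y) := by
  rw [bord_eq, Matrix.det_mul, Matrix.det_mul, Matrix.det_transpose, det_bordM, det_bordM,
    Matrix.det_diagonal, one_mul, mul_one, Fin.prod_univ_castSucc]
  have h1 : ∀ l : Fin k, (if ((l.castSucc : Fin (k + 1)) : ℕ) < k then ns b l.castSucc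
      else g b k x ⬝ᵥ g b k y) = ns b l := fun l => by
    have hl : (l : ℕ) < k := l.2
    have e : ((l.castSucc : Fin (k + 1)) : ℕ) = l := rfl
    rw [e, if_pos hl]
  rw [Finset.prod_congr rfl fun l _ => h1 l, Fin.prod_univ_eq_prod_range (fun l => ns b l) k]
  congr 1
  simp

theorem DQ_eq_prod (b : ℕ → Fin N → ℚ) (k : ℕ) : DQ b k = ∏ l ∈ range k, ns b l := by
  cases k with
  | zero => simp
  | succ k =>
    rw [prod_range_succ]
    have h := det_bord' b k (b k) (b k)
    have e : bord b k (b k) (b k) = Matrix.of fun i j : Fin (k + 1) => b i ⬝ᵥ b j := by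
      ext i j
      unfold bord
      simp only [Matrix.of_apply]
      have hi := i.2
      have hj := j.2
      have hi' : (if (i : ℕ) < k then b i else b k) = b i := by
        split_ifs with h
        · rfl
        · congr 1; omega
      have hj' : (if (j : ℕ) < k then b j else b k) = b j := by
        split_ifs with h
        · rfl
        · congr 1; omega
      rw [hi', hj']
    rw [e] at h
    exact h

theorem det_bord (b : ℕ → Fin N → ℚ) (k : ℕ) (x y : Fin N → ℚ) :
    (bord b k x y).det = DQ b k * (g b k x ⬝ᵥ g b k y) := by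
  rw [det_bord', DQ_eq_prod]

theorem DQ_succ (b : ℕ → Fin N → ℚ) (k : ℕ) : DQ b (k + 1) = DQ b k * ns b k := by
  rw [DQ_eq_prod, DQ_eq_prod, prod_range_succ]

/-- Invariance under size reduction. -/
theorem g_update (b : ℕ → Fin N → ℚ) {i j : ℕ} (hji : j < i) (q : ℚ) (k : ℕ) :
    g (update b i (b i - q • b j)) k = g b k := by
  induction k with
  | zero => rfl
  | succ k ih =>
    funext x
    have hbk : g (update b i (b i - q • b j)) k (update b i (b i - q • b j) k) = g b k (b k) := by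
      rw [ih]
      by_cases hk : k = i
      · subst hk
        rw [update_self, g_sub, g_smul, g_eq_zero b hji, smul_zero, sub_zero]
      · rw [update_of_ne hk]
    simp only [g]
    rw [hbk, ih]

theorem g_congr {b c : ℕ → Fin N → ℚ} {k : ℕ} (h : ∀ i < k, b i = c i) : g b k = g c k := by
  induction k with
  | zero => rfl
  | succ k ih =>
    funext x
    simp only [g]
    rw [ih (fun i hi => h i (by omega)), h k (by omega)]

theorem DQ_swap (b : ℕ → Fin N → ℚ) {i k : ℕ} (hik : i + 2 ≤ k) :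
    DQ (b ∘ Equiv.swap i (i + 1)) k = DQ b k := by
  unfold DQ
  have hi : i < k := by omega
  have hi1 : i + 1 < k := by omega
  have : (Matrix.of fun x y : Fin k => (b ∘ Equiv.swap i (i + 1)) x ⬝ᵥ
      (b ∘ Equiv.swap i (i + 1)) y) = (Matrix.of fun x y : Fin k => b x ⬝ᵥ b y).submatrix
        (Equiv.swap ⟨i, hi⟩ ⟨i + 1, hi1⟩) (Equiv.swap ⟨i, hi⟩ ⟨i + 1, hi1⟩) := by
    ext x y
    simp only [Matrix.of_apply, Matrix.submatrix_apply, comp_apply]
    have key : ∀ z : Fin k, Equiv.swap i (i + 1) (z : ℕ) =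
        ((Equiv.swap (⟨i, hi⟩ : Fin k) ⟨i + 1, hi1⟩ z : Fin k) : ℕ) := by
      intro z
      rcases eq_or_ne z ⟨i, hi⟩ with h | h
      · subst h; simp
      · rcases eq_or_ne z ⟨i + 1, hi1⟩ with h' | h'
        · subst h'; simp
        · rw [Equiv.swap_apply_of_ne_of_ne h h', Equiv.swap_apply_of_ne_of_ne]
          · intro e; exact h (Fin.ext e)
          · intro e; exact h' (Fin.ext e)
    rw [key x, key y]
  rw [this, Matrix.det_submatrix_equiv_self]

theorem DQ_swap_le (b : ℕ → Fin N → ℚ) {i k : ℕ} (hik : k ≤ i) :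
    DQ (b ∘ Equiv.swap i (i + 1)) k = DQ b k := by
  unfold DQ
  congr 1
  ext x y
  have key : ∀ z : Fin k, Equiv.swap i (i + 1) (z : ℕ) = z := by
    intro z
    have := z.2
    exact Equiv.swap_apply_of_ne_of_ne (by omega) (by omega)
  simp only [Matrix.of_apply, comp_apply, key]

theorem ns_swap (b : ℕ → Fin N → ℚ) (i : ℕ) :
    ns (b ∘ Equiv.swap i (i + 1)) i = ns b (i + 1) + mu b i (b (i + 1)) ^ 2 * ns b i := by
  have h1 : g (b ∘ Equiv.swap i (i + 1)) i = g b i :=
    g_congr fun j hj => by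
      simp only [comp_apply]
      rw [Equiv.swap_apply_of_ne_of_ne (by omega) (by omega)]
  have h2 : bs (b ∘ Equiv.swap i (i + 1)) i = g b i (b (i + 1)) := by
    unfold bs
    rw [h1]
    simp
  unfold ns
  rw [h2, dot_step b i]
  change ns b (i + 1) + _ = _
  unfold ns
  ring

end Pool.Agent.H79.LLL
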